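import Pool.Agent.Run7.h441.JM.Mo.Iface

/-! The norm of the auxiliary element is divisible by a high power of `x₂ - x₁`. -/

set_option autoImplicit false

open Polynomial

set_option linter.unusedSectionVars false

namespace Run7.h441.JM.Mo

variable [Gc]

/-- norm of `RR S` -/
noncomputable def NR {S : Type} [CommRing S] (G : RR S) : P2 S := G.re ^ 2 - DD S * G.im ^ 2

lemma NR_mul {S : Type} [CommRing S] (G H : RR S) : NR (G * H) = NR G * NR H := by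
  simp only [NR, QuadraticAlgebra.re_mul, QuadraticAlgebra.im_mul, zero_mul, add_zero]
  ring

lemma NR_one {S : Type} [CommRing S] : NR (1 : RR S) = 1 := by
  simp [NR, QuadraticAlgebra.re_one, QuadraticAlgebra.im_one]

lemma NR_pow {S : Type} [CommRing S] (G : RR S) (n : ℕ) : NR (G ^ n) = NR G ^ n := by
  induction n with
  | zero => rw [pow_zero, pow_zero, NR_one]
  | succ n ih => rw [pow_succ, NR_mul, ih, pow_succ]

lemma NR_dl {S : Type} [CommRing S] : NR (dl S) = dlt S ^ 2 := by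
  simp [NR, dl]

/-- cofactor -/
noncomputable def qq (S : Type) [CommRing S] : P2 S :=
  -((g3 : P2 S) * (X ^ 5 + X ^ 4 * C X + X ^ 3 * C X ^ 2 + X ^ 2 * C X ^ 3 + X * C X ^ 4 + C X ^ 5)
    + (g2 : P2 S) * (X ^ 3 + X ^ 2 * C X + X * C X ^ 2 + C X ^ 3) + (g1 : P2 S) * (X + C X))

lemma NR_P0 {S : Type} [CommRing S] : NR (P0 S) = (dlt S * qq S) ^ 2 := by
  simp only [NR, P0, DD, f1, f2, ff, dlt, qq, map_add, map_mul, map_pow, map_intCast]
  ring

lemma e0_qq {S : Type} [CommRing S] : e0 (qq S) = - df S := by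
  simp only [e0, qq, df, eval_neg, eval_add, eval_mul, eval_pow, eval_X, eval_C, eval_intCast]
  ring

lemma df_ne {S : Type} [CommRing S] [IsDomain S] [CharZero S] : df S ≠ 0 := by
  intro h
  have h5 := congrArg (fun p => p.coeff 5) h
  have e : df S = C (6 * (g3 : S)) * X ^ 5 + C (4 * (g2 : S)) * X ^ 3 + C (2 * (g1 : S)) * X := by
    simp only [df, map_mul, map_ofNat, map_intCast]; ring
  rw [e] at h5
  simp only [coeff_add, coeff_C_mul, coeff_X_pow, coeff_X, coeff_zero] at h5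
  norm_num at h5
  exact Gc.hg3 (by exact_mod_cast h5)

lemma derivative_ff {S : Type} [CommRing S] : derivative (ff S) = df S := by
  have h5 : (C (5 : S) + 1 : Polynomial S) = 6 := by rw [map_ofNat]; norm_num
  have h3 : (C (3 : S) + 1 : Polynomial S) = 4 := by rw [map_ofNat]; norm_num
  have h2 : (C (2 : S) : Polynomial S) = 2 := map_ofNat C 2
  simp [ff, df, h5, h3, one_add_one_eq_two, h2]

lemma map_ff {S T : Type} [CommRing S] [CommRing T] (φ : S →+* T) : (ff S).map φ = ff T := by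
  simp [ff]

lemma eval_ff {S : Type} [CommRing S] (a : S) : (ff S).eval a = fv a := by
  simp [ff, fv]

lemma eval_df {S : Type} [CommRing S] (a : S) : (df S).eval a =
    (g3 : S) * (6 * a ^ 5) + (g2 : S) * (4 * a ^ 3) + (g1 : S) * (2 * a) := by
  simp [df]

lemma dlt_prime {S : Type} [CommRing S] [IsDomain S] : Prime (dlt S) := prime_X_sub_C _

lemma not_dvd_qq {S : Type} [CommRing S] [IsDomain S] [CharZero S] : ¬ dlt S ∣ qq S := by
  rintro ⟨q, hq⟩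
  have h := congrArg e0 hq
  rw [e0_mul, e0_dlt, zero_mul, e0_qq, neg_eq_zero] at h
  exact df_ne h

/-- `a² = f g₃ b²` is impossible -/
lemma no_square {a b : Polynomial ℤ} (hb : b ≠ 0) (h : a ^ 2 = (ff ℤ * (g3 : Polynomial ℤ)) * b ^ 2) :
    False := by
  have hinj : Function.Injective (Int.castRingHom ℂ) := RingHom.injective_int _
  set A := a.map (Int.castRingHom ℂ) with hA
  set B := b.map (Int.castRingHom ℂ) with hB
  have hB0 : B ≠ 0 := (Polynomial.map_ne_zero_iff hinj).mpr hb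
  have hAB : A ^ 2 = (ff ℂ * (g3 : Polynomial ℂ)) * B ^ 2 := by
    have := congrArg (Polynomial.map (Int.castRingHom ℂ)) h
    simpa [Polynomial.map_pow, Polynomial.map_mul, Polynomial.map_add, map_ff] using this
  have hg : ((g3 : ℤ) : Polynomial ℂ) ≠ 0 := by exact_mod_cast Gc.hg3
  have hff : (ff ℂ * (g3 : Polynomial ℂ) : Polynomial ℂ) ≠ 0 := mul_ne_zero ff_ne hg
  have hmul : (ff ℂ * (g3 : Polynomial ℂ)) * B ^ 2 ≠ 0 := mul_ne_zero hff (pow_ne_zero _ hB0)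
  have hA0 : A ≠ 0 := by
    intro h0
    rw [h0] at hAB
    exact hmul (by rw [← hAB]; ring)
  obtain ⟨α, hα⟩ := IsAlgClosed.exists_pow_nat_eq (Gc.c1 : ℂ) (n := 2) (by norm_num)
  have hα0 : α ≠ 0 := by
    rintro rfl
    have := Gc.hc1
    apply this
    rw [← hα]; norm_num
  have c2 : ((g2 : ℤ) : ℂ) = - ((g3 : ℂ) * ((Gc.c1 : ℂ) + (Gc.c2 : ℂ) + (Gc.c3 : ℂ))) := Gc.hcg2
  have c1 : ((g1 : ℤ) : ℂ) = (g3 : ℂ) * ((Gc.c1 : ℂ) * (Gc.c2 : ℂ) + (Gc.c1 : ℂ) * (Gc.c3 : ℂ)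
      + (Gc.c2 : ℂ) * (Gc.c3 : ℂ)) := Gc.hcg1
  have c0 : ((g0 : ℤ) : ℂ) = - ((g3 : ℂ) * ((Gc.c1 : ℂ) * (Gc.c2 : ℂ) * (Gc.c3 : ℂ))) := Gc.hcg0
  have d12 : (Gc.c1 : ℂ) - (Gc.c2 : ℂ) ≠ 0 := sub_ne_zero.mpr Gc.hc12
  have d13 : (Gc.c1 : ℂ) - (Gc.c3 : ℂ) ≠ 0 := sub_ne_zero.mpr Gc.hc13
  have hg' : ((g3 : ℤ) : ℂ) ≠ 0 := by exact_mod_cast Gc.hg3
  have hroot : (ff ℂ * (g3 : Polynomial ℂ) : Polynomial ℂ).IsRoot α := by
    have h2 : fv α = 0 := by
      have h4 : α ^ 4 = (Gc.c1 : ℂ) ^ 2 := by rw [← hα]; ring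
      have h6 : α ^ 6 = (Gc.c1 : ℂ) ^ 3 := by rw [← hα]; ring
      unfold fv
      rw [h6, h4, hα, c2, c1, c0]; ring
    rw [IsRoot, eval_mul, eval_ff, h2, zero_mul]
  have hder : ¬ (derivative (ff ℂ * (g3 : Polynomial ℂ) : Polynomial ℂ)).IsRoot α := by
    rw [derivative_mul, derivative_ff, derivative_intCast, mul_zero, add_zero, IsRoot, eval_mul,
      eval_df, eval_intCast]
    have h5 : α ^ 5 = (Gc.c1 : ℂ) ^ 2 * α := by rw [← hα]; ring
    have h3 : α ^ 3 = (Gc.c1 : ℂ) * α := by rw [← hα]; ring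
    have e : (g3 : ℂ) * (6 * α ^ 5) + (g2 : ℂ) * (4 * α ^ 3) + (g1 : ℂ) * (2 * α)
        = 2 * α * ((g3 : ℂ) * (((Gc.c1 : ℂ) - (Gc.c2 : ℂ)) * ((Gc.c1 : ℂ) - (Gc.c3 : ℂ)))) := by
      rw [h5, h3, c2, c1]; ring
    rw [e]
    exact mul_ne_zero (mul_ne_zero (mul_ne_zero two_ne_zero hα0)
      (mul_ne_zero hg' (mul_ne_zero d12 d13))) hg'
  have hm : rootMultiplicity α (ff ℂ * (g3 : Polynomial ℂ) : Polynomial ℂ) = 1 := by
    have h1 : 0 < rootMultiplicity α (ff ℂ * (g3 : Polynomial ℂ) : Polynomial ℂ) :=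
      (rootMultiplicity_pos hff).mpr hroot
    have h2 : ¬ 1 < rootMultiplicity α (ff ℂ * (g3 : Polynomial ℂ) : Polynomial ℂ) := by
      rw [one_lt_rootMultiplicity_iff_isRoot hff]
      exact fun h => hder h.2
    omega
  have h3 := congrArg (rootMultiplicity α) hAB
  have hsq : ∀ P : Polynomial ℂ, P ≠ 0 →
      rootMultiplicity α (P ^ 2) = 2 * rootMultiplicity α P := by
    intro P hP
    rw [sq, rootMultiplicity_mul (mul_ne_zero hP hP)]
    ring
  rw [rootMultiplicity_mul hmul, hm, hsq _ hA0, hsq _ hB0] at h3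
  omega

lemma NR_ne {G : RR ℤ} (hG : G ≠ 0) : NR G ≠ 0 := by
  intro h
  have h1 : G.re ^ 2 = DD ℤ * G.im ^ 2 := sub_eq_zero.mp h
  have him : G.im ≠ 0 := by
    intro h0
    apply hG
    rw [h0] at h1
    have : G.re = 0 := by
      have : G.re ^ 2 = 0 := by rw [h1]; ring
      exact pow_eq_zero_iff (two_ne_zero) |>.mp this
    ext1
    · exact this
    · exact h0
  have hlc := congrArg leadingCoeff h1
  have hDD : (DD ℤ).leadingCoeff = (f1 ℤ).leadingCoeff * (f2 ℤ).leadingCoeff := by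
    rw [← leadingCoeff_mul]; rfl
  have hf1 : (f1 ℤ).leadingCoeff = ff ℤ := by rw [f1, leadingCoeff_C]
  have hf2 : (f2 ℤ).leadingCoeff = (g3 : Polynomial ℤ) := by
    have h6 : (f2 ℤ).coeff 6 = (g3 : Polynomial ℤ) := by
      have h : f2 ℤ = C (g3 : Polynomial ℤ) * X ^ 6 + C (g2 : Polynomial ℤ) * X ^ 4
          + C (g1 : Polynomial ℤ) * X ^ 2 + C (g0 : Polynomial ℤ) := by
        simp [f2]
      rw [h]
      simp only [coeff_add, coeff_C_mul, coeff_X_pow, coeff_C]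
      norm_num
    have hne : (f2 ℤ).coeff 6 ≠ 0 := by
      rw [h6]
      exact_mod_cast Gc.hg3
    have hd : (f2 ℤ).natDegree = 6 := le_antisymm BD_f2.2 (le_natDegree_of_ne_zero hne)
    rw [leadingCoeff, hd, h6]
  rw [leadingCoeff_pow, leadingCoeff_mul, leadingCoeff_pow, hDD, hf1, hf2] at hlc
  exact no_square (leadingCoeff_ne_zero.mpr him) hlc

lemma BD_quot_pow {S : Type} [CommRing S] {n m k : ℕ} {p q : P2 S} (h : p = dlt S ^ k * q)
    (hp : BD (n + k) (m + k) p) : BD n m q := by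
  induction k generalizing p with
  | zero => simpa [h] using hp
  | succ k ih =>
    refine ih (p := dlt S ^ k * q) rfl ?_
    refine BD_quot (p := p) ?_ hp
    rw [h]; ring

theorem norm_dvd {G R R' : RR ℤ} {e n₁ n₂ : ℕ} (hG0 : G ≠ 0) (hG : BR n₁ n₂ G) (hV : VV e G R R')
    (he₁ : e ≤ n₁) (he₂ : e ≤ n₂) :
    ∃ Q : P2 ℤ, G.re ^ 2 - DD ℤ * G.im ^ 2 = dlt ℤ ^ (2 * e) * Q ∧ Q ≠ 0 ∧
      BD (2 * n₁ - 2 * e) (2 * n₂ - 2 * e) Q := by
  have h1 := congrArg NR hV.1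
  rw [NR_mul, NR_mul, NR_pow, NR_pow, NR_P0, NR_dl] at h1
  have h2 : qq ℤ ^ (2 * e) * NR G = dlt ℤ ^ (2 * e) * NR R := by
    have hd : dlt ℤ ^ (2 * e) ≠ 0 := pow_ne_zero _ dlt_ne
    apply mul_left_cancel₀ hd
    calc dlt ℤ ^ (2 * e) * (qq ℤ ^ (2 * e) * NR G) = ((dlt ℤ * qq ℤ) ^ 2) ^ e * NR G := by
          rw [mul_pow, mul_pow, ← pow_mul, ← pow_mul]; ring
      _ = (dlt ℤ ^ 2) ^ (2 * e) * NR R := h1
      _ = _ := by rw [← pow_mul, two_mul (2 * e), pow_add]; ring_nf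
  have hnd : ¬ dlt ℤ ∣ qq ℤ ^ (2 * e) := fun h => not_dvd_qq (dlt_prime.dvd_of_dvd_pow h)
  have h3 : dlt ℤ ^ (2 * e) ∣ NR G :=
    dlt_prime.pow_dvd_of_dvd_mul_left (2 * e) hnd ⟨NR R, h2⟩
  obtain ⟨Q, hQ⟩ := h3
  refine ⟨Q, hQ, ?_, ?_⟩
  · rintro rfl
    exact NR_ne hG0 (by rw [hQ, mul_zero])
  · have hBD : BD (2 * n₁) (2 * n₂) (NR G) := by
      obtain ⟨g1, g2, g3, g4⟩ := hG
      have e1 : BD (2 * n₁) (2 * n₂) (G.re ^ 2) := (g3.pow 2).mono (by omega) (by omega)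
      have e2 : BD (2 * n₁) (2 * n₂) (-(DD ℤ * G.im ^ 2)) := by
        have := BD_DD.mul (g4.pow 2)
        have h5 : BD (2 * n₁) (2 * n₂) (DD ℤ * G.im ^ 2) := this.mono (by omega) (by omega)
        refine ⟨fun j => ?_, ?_⟩
        · rw [coeff_neg, natDegree_neg]; exact h5.1 j
        · rw [natDegree_neg]; exact h5.2
      have := e1.add e2
      rw [← sub_eq_add_neg] at this
      exact this
    refine BD_quot_pow (k := 2 * e) hQ (hBD.mono ?_ ?_) <;> omega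

end Run7.h441.JM.Mo
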