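import Pool.Agent.Run7.h441.JM.Mo.V4
import Pool.Agent.Run7.h441.JM.Mo.Rank
import Pool.Agent.Run7.h441.JM.Mo.Sum
import Pool.Agent.Run7.h441.JM.Mo.Asm2
import Pool.Agent.H437R2.Man.Sieg
import Pool.Agent.H106R2.Roth

/-! Finiteness of rational points on `y² = g(x²)`, `g` a cubic with distinct nonzero rational
roots, over every number field. -/

set_option autoImplicit false

namespace Run7.h441.JM.Mo

open Pool.Agent.H106R2

open Pool.Agent.H437R2.Man (siegel_rank RothStatement)

theorem aux [Gc] : AuxStatement :=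
  aux_of siegel_rank (fun k c => LL_Gof k c)
    (fun n₁ n₂ e D h₁ h₂ => rank_Amat n₁ n₂ e D h₁ h₂) (fun h₁ h₂ c => BR_Gof h₁ h₂ c)
    (fun hc => Gof_ne hc)

theorem roth (K : Type) [Field K] [NumberField K] : RothStatement K := Rt.roth2 K

/-- Mordell's conjecture for the curves `y² = g₃ (x² - e₁) (x² - e₂) (x² - e₃)` with integral
coefficients `g_i` and distinct nonzero roots `e_i` in the number field `K`. -/
theorem mordell [Gc] (K : Type) [Field K] [NumberField K] [DecidableEq K] [Rts K] :
    {x : K | ∃ y : K, y ^ 2 = fv x}.Finite :=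
  mordell_of aux K (mi K) (phi_lower K) (roth K)

end Run7.h441.JM.Mo
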