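import Pool.Agent.Run7.h441.JM.Mo.G0

/-! Bivariate polynomials, the ring `S[x₁,x₂][Y]/(Y² - f(x₁) f(x₂))`, vanishing along the
diagonal. -/

set_option autoImplicit false
set_option linter.unusedSectionVars false
set_option linter.unusedSimpArgs false

open Polynomial

namespace Run7.h441.JM.Mo

variable [Gc]

section defs

variable (S : Type) [CommRing S]

/-- polynomials in `x₂` (outer variable) over polynomials in `x₁` (inner variable) -/
abbrev P2 : Type := Polynomial (Polynomial S)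

noncomputable def ff : Polynomial S :=
  (g3 : Polynomial S) * X ^ 6 + (g2 : Polynomial S) * X ^ 4 + (g1 : Polynomial S) * X ^ 2
    + (g0 : Polynomial S)
/-- derivative of `ff` -/
noncomputable def df : Polynomial S :=
  (g3 : Polynomial S) * (6 * X ^ 5) + (g2 : Polynomial S) * (4 * X ^ 3)
    + (g1 : Polynomial S) * (2 * X)
noncomputable def f1 : P2 S := C (ff S)
noncomputable def f2 : P2 S :=
  (g3 : P2 S) * X ^ 6 + (g2 : P2 S) * X ^ 4 + (g1 : P2 S) * X ^ 2 + (g0 : P2 S)
noncomputable def DD : P2 S := f1 S * f2 S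
/-- `x₂ - x₁` -/
noncomputable def dlt : P2 S := X - C X

abbrev RR : Type := QuadraticAlgebra (P2 S) (DD S) 0

noncomputable def P0 : RR S := ⟨f1 S + f2 S, 2⟩
noncomputable def P3 : RR S := ⟨f1 S * X ^ 6 + f2 S * (C X) ^ 6, 2 * (C X) ^ 3 * X ^ 3⟩
noncomputable def dl : RR S := ⟨dlt S, 0⟩

end defs

section jets

variable {S : Type} [CommRing S]

/-- restriction to the diagonal -/
noncomputable def e0 (p : P2 S) : Polynomial S := p.eval X
noncomputable def e1 (p : P2 S) : Polynomial S := (derivative p).eval X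

lemma e0_mul (p q : P2 S) : e0 (p * q) = e0 p * e0 q := eval_mul
lemma e0_add (p q : P2 S) : e0 (p + q) = e0 p + e0 q := eval_add
lemma e1_add (p q : P2 S) : e1 (p + q) = e1 p + e1 q := by simp [e1]
lemma e1_mul (p q : P2 S) : e1 (p * q) = e1 p * e0 q + e0 p * e1 q := by
  simp [e1, e0, derivative_mul]

lemma e0_f1 : e0 (f1 S) = ff S := by simp [e0, f1, ff]
lemma e0_f2 : e0 (f2 S) = ff S := by simp [e0, f2, ff]
lemma e1_f1 : e1 (f1 S) = 0 := by rw [e1, f1, derivative_C, eval_zero]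
lemma e1_f2 : e1 (f2 S) = df S := by
  simp [e1, f2, df]; norm_num
lemma e0_dlt : e0 (dlt S) = 0 := by simp [e0, dlt]
lemma e1_dlt : e1 (dlt S) = 1 := by simp [e1, dlt]

noncomputable def a0 (G : RR S) : Polynomial S := e0 G.re + ff S * e0 G.im
noncomputable def b1 (G : RR S) : Polynomial S :=
  2 * e1 G.re + 2 * ff S * e1 G.im + df S * e0 G.im

lemma a0_mul (G H : RR S) : a0 (G * H) = a0 G * a0 H := by
  simp only [a0, QuadraticAlgebra.re_mul, QuadraticAlgebra.im_mul, DD, e0_add, e0_mul, e0_f1, e0_f2,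
    zero_mul, add_zero]
  have : e0 (0 : P2 S) = 0 := by simp [e0]
  ring

lemma b1_mul (G H : RR S) : b1 (G * H) = a0 G * b1 H + b1 G * a0 H := by
  simp only [a0, b1, QuadraticAlgebra.re_mul, QuadraticAlgebra.im_mul, DD, e0_add, e0_mul, e0_f1,
    e0_f2, e1_add, e1_mul, e1_f1, e1_f2, zero_mul, add_zero]
  ring

lemma a0_pow (G : RR S) (n : ℕ) : a0 (G ^ n) = a0 G ^ n := by
  induction n with
  | zero => simp [a0, e0, QuadraticAlgebra.re_one, QuadraticAlgebra.im_one]
  | succ n ih => rw [pow_succ, a0_mul, ih, pow_succ]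

lemma a0_P0 : a0 (P0 S) = 4 * ff S := by
  have h2 : e0 (2 : P2 S) = 2 := by simp [e0]
  simp only [a0, P0, e0_add, e0_f1, e0_f2, h2]
  ring

lemma a0_P3 : a0 (P3 S) = 4 * ff S * X ^ 6 := by
  have h2 : e0 (2 : P2 S) = 2 := by simp [e0]
  have hX : e0 (X : P2 S) = X := by simp [e0]
  have hC : e0 (C X : P2 S) = X := by simp [e0]
  have hp : ∀ (p : P2 S) (n : ℕ), e0 (p ^ n) = e0 p ^ n := fun p n => eval_pow n
  simp only [a0, P3, e0_add, e0_mul, hp, e0_f1, e0_f2, h2, hX, hC]
  ring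

lemma a0_star_P0 : a0 (star (P0 S)) = 0 := by
  have h2 : e0 (2 : P2 S) = 2 := by simp [e0]
  have hn : ∀ (p : P2 S), e0 (-p) = - e0 p := fun p => eval_neg _ _
  simp only [a0, P0, QuadraticAlgebra.re_star, QuadraticAlgebra.im_star, e0_add, e0_f1, e0_f2, h2, hn,
    zero_mul, add_zero]
  ring

lemma b1_star_P0 : b1 (star (P0 S)) = 0 := by
  have h2 : e0 (2 : P2 S) = 2 := by simp [e0]
  have h2' : e1 (-2 : P2 S) = 0 := by simp [e1]
  have hn : ∀ (p : P2 S), e0 (-p) = - e0 p := fun p => eval_neg _ _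
  simp only [b1, P0, QuadraticAlgebra.re_star, QuadraticAlgebra.im_star, e1_add, e1_f1, e1_f2, h2,
    h2', hn, zero_mul, add_zero]
  ring

lemma a0_star_P3 : a0 (star (P3 S)) = 0 := by
  have h2 : e0 (2 : P2 S) = 2 := by simp [e0]
  have hX : e0 (X : P2 S) = X := by simp [e0]
  have hC : e0 (C X : P2 S) = X := by simp [e0]
  have hp : ∀ (p : P2 S) (n : ℕ), e0 (p ^ n) = e0 p ^ n := fun p n => eval_pow n
  have hn : ∀ (p : P2 S), e0 (-p) = - e0 p := fun p => eval_neg _ _
  simp only [a0, P3, QuadraticAlgebra.re_star, QuadraticAlgebra.im_star, e0_add, e0_mul, hp, e0_f1,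
    e0_f2, h2, hX, hC, hn, zero_mul, add_zero]
  ring

lemma b1_star_P3 : b1 (star (P3 S)) = 0 := by
  have h2 : e0 (2 : P2 S) = 2 := by simp [e0]
  have h2' : e1 (2 : P2 S) = 0 := by simp [e1]
  have hX : e0 (X : P2 S) = X := by simp [e0]
  have hC : e0 (C X : P2 S) = X := by simp [e0]
  have hC' : ∀ n : ℕ, e1 ((C X : P2 S) ^ n) = 0 := fun n => by
    rw [← C_pow]; simp only [e1, derivative_C, eval_zero]
  have hX6 : e1 ((X : P2 S) ^ 6) = 6 * X ^ 5 := by simp [e1]; norm_num
  have hX3 : e1 ((X : P2 S) ^ 3) = 3 * X ^ 2 := by simp [e1]; norm_num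
  have hp : ∀ (p : P2 S) (n : ℕ), e0 (p ^ n) = e0 p ^ n := fun p n => eval_pow n
  have hn : ∀ (p : P2 S), e0 (-p) = - e0 p := fun p => eval_neg _ _
  have hn1 : ∀ (p : P2 S), e1 (-p) = - e1 p := fun p => by simp [e1]
  simp only [b1, P3, QuadraticAlgebra.re_star, QuadraticAlgebra.im_star, e0_add, e0_mul, hp, e0_f1,
    e0_f2, h2, hX, hC, hn, zero_mul, add_zero, e1_add, e1_mul, e1_f1, e1_f2, h2', hC', hX6, hX3, hn1]
  ring

end jets

section dom

variable {S : Type} [CommRing S] [IsDomain S] [CharZero S]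

lemma dlt_dvd {p : P2 S} (h : e0 p = 0) : ∃ q, p = dlt S * q := by
  have : (X - C (X : Polynomial S)) ∣ p := dvd_iff_isRoot.mpr h
  exact this

lemma dlt_ne : dlt S ≠ 0 := X_sub_C_ne_zero _

lemma dlt_sq_dvd {p : P2 S} (h : e0 p = 0) (h1 : e1 p = 0) : ∃ q, p = dlt S ^ 2 * q := by
  obtain ⟨q, rfl⟩ := dlt_dvd h
  rw [e1_mul, e1_dlt, e0_dlt, one_mul, zero_mul, add_zero] at h1
  obtain ⟨r, rfl⟩ := dlt_dvd h1
  exact ⟨r, by ring⟩

lemma two_ne' : (2 : Polynomial S) ≠ 0 := two_ne_zero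

lemma four_ne' : (4 : Polynomial S) ≠ 0 := by
  have : (4 : Polynomial S) = 2 * 2 := by norm_num
  rw [this]; exact mul_ne_zero two_ne' two_ne'

lemma star_mulRR (G H : RR S) : star (G * H) = star G * star H := by
  ext1
  · simp only [QuadraticAlgebra.re_star, QuadraticAlgebra.re_mul, QuadraticAlgebra.im_mul,
      QuadraticAlgebra.im_star]
    ring
  · simp only [QuadraticAlgebra.re_star, QuadraticAlgebra.re_mul, QuadraticAlgebra.im_mul,
      QuadraticAlgebra.im_star]
    ring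

lemma ff_coeff6 : (ff S).coeff 6 = (g3 : S) := by
  have h : ff S = C (g3 : S) * X ^ 6 + C (g2 : S) * X ^ 4 + C (g1 : S) * X ^ 2 + C (g0 : S) := by
    simp [ff]
  rw [h]
  simp only [coeff_add, coeff_C_mul, coeff_X_pow, coeff_C]
  norm_num

lemma ff_ne : ff S ≠ 0 := by
  intro h
  have := congrArg (fun p => p.coeff 6) h
  simp only [ff_coeff6, coeff_zero] at this
  exact Gc.hg3 (by exact_mod_cast this)

/-- an element all of whose jets (on both branches) vanish is divisible by `δ²` -/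
lemma dl_sq_dvd {G : RR S} (h1 : a0 G = 0) (h2 : b1 G = 0) (h3 : a0 (star G) = 0)
    (h4 : b1 (star G) = 0) : ∃ G', G = dl S ^ 2 * G' := by
  have hn : ∀ (p : P2 S), e0 (-p) = - e0 p := fun p => eval_neg _ _
  have hn1 : ∀ (p : P2 S), e1 (-p) = - e1 p := fun p => by simp [e1]
  simp only [a0, b1, QuadraticAlgebra.re_star, QuadraticAlgebra.im_star, zero_mul, add_zero, hn, hn1]
    at h1 h2 h3 h4
  have r0 : e0 G.re = 0 := by
    have : 2 * e0 G.re = 0 := by linear_combination h1 + h3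
    exact (mul_eq_zero.mp this).resolve_left two_ne'
  have i0 : e0 G.im = 0 := by
    rw [r0, zero_add] at h1
    exact (mul_eq_zero.mp h1).resolve_left ff_ne
  have r1 : e1 G.re = 0 := by
    have : 2 * (2 * e1 G.re) = 0 := by linear_combination h2 + h4
    exact (mul_eq_zero.mp ((mul_eq_zero.mp this).resolve_left two_ne')).resolve_left two_ne'
  have i1 : e1 G.im = 0 := by
    have : 2 * ff S * e1 G.im = 0 := by linear_combination h2 - 2 * r1 - df S * i0
    exact (mul_eq_zero.mp this).resolve_left (mul_ne_zero two_ne' ff_ne)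
  obtain ⟨q, hq⟩ := dlt_sq_dvd r0 r1
  obtain ⟨q', hq'⟩ := dlt_sq_dvd i0 i1
  refine ⟨⟨q, q'⟩, ?_⟩
  ext1
  · simp only [dl, sq, QuadraticAlgebra.re_mul, QuadraticAlgebra.im_mul, zero_mul, mul_zero, add_zero]
    rw [hq]; ring
  · simp only [dl, sq, QuadraticAlgebra.re_mul, QuadraticAlgebra.im_mul, zero_mul, mul_zero, add_zero,
      zero_add]
    rw [hq']; ring

lemma re_dl_pow_mul (n : ℕ) (G : RR S) : (dl S ^ n * G).re = dlt S ^ n * G.re ∧
    (dl S ^ n * G).im = dlt S ^ n * G.im := by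
  have h : dl S ^ n = algebraMap (P2 S) (RR S) (dlt S ^ n) := by
    rw [map_pow]; rfl
  rw [h, QuadraticAlgebra.re_mul, QuadraticAlgebra.im_mul, QuadraticAlgebra.algebraMap_re,
    QuadraticAlgebra.algebraMap_im]
  constructor <;> ring

lemma dl_cancel {n : ℕ} {G H : RR S} (h : dl S ^ n * G = dl S ^ n * H) : G = H := by
  have hd : dlt S ^ n ≠ 0 := pow_ne_zero _ dlt_ne
  ext1
  · have := congrArg QuadraticAlgebra.re h
    rw [(re_dl_pow_mul n G).1, (re_dl_pow_mul n H).1] at this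
    exact mul_left_cancel₀ hd this
  · have := congrArg QuadraticAlgebra.im h
    rw [(re_dl_pow_mul n G).2, (re_dl_pow_mul n H).2] at this
    exact mul_left_cancel₀ hd this

/-- `G` vanishes to order `2j` along the diagonal, with quotients -/
def VV (j : ℕ) (G R R' : RR S) : Prop :=
  P0 S ^ j * G = dl S ^ (2 * j) * R ∧ P3 S ^ j * G = dl S ^ (2 * j) * R'

lemma VV.rel {j : ℕ} {G R R' : RR S} (h : VV j G R R') : P3 S ^ j * R = P0 S ^ j * R' := by
  apply dl_cancel (n := 2 * j)
  calc dl S ^ (2*j) * (P3 S ^ j * R) = P3 S ^ j * (dl S ^ (2*j) * R) := by ring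
    _ = P3 S ^ j * (P0 S ^ j * G) := by rw [h.1]
    _ = P0 S ^ j * (P3 S ^ j * G) := by ring
    _ = P0 S ^ j * (dl S ^ (2*j) * R') := by rw [h.2]
    _ = _ := by ring

lemma VV.a0_rel {j : ℕ} {G R R' : RR S} (h : VV j G R R') : X ^ (6*j) * a0 R = a0 R' := by
  have h1 := congrArg a0 h.rel
  rw [a0_mul, a0_mul, a0_pow, a0_pow, a0_P0, a0_P3, mul_pow] at h1
  have h2 : (4 * ff S) ^ j ≠ 0 := pow_ne_zero _ (mul_ne_zero four_ne' ff_ne)
  apply mul_left_cancel₀ h2
  rw [← h1, pow_mul]; ring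

lemma VV.b1_rel {j : ℕ} {G R R' : RR S} (h : VV j G R R') (h0 : a0 R = 0) :
    X ^ (6*j) * b1 R = b1 R' := by
  have h0' : a0 R' = 0 := by rw [← h.a0_rel, h0, mul_zero]
  have h1 := congrArg b1 h.rel
  rw [b1_mul, b1_mul, h0, h0', a0_pow, a0_pow, a0_P0, a0_P3, mul_zero, mul_zero, add_zero, add_zero,
    mul_pow] at h1
  have h2 : (4 * ff S) ^ j ≠ 0 := pow_ne_zero _ (mul_ne_zero four_ne' ff_ne)
  apply mul_left_cancel₀ h2
  rw [← h1, pow_mul]; ring

lemma VV_zero (G : RR S) : VV 0 G G G := by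
  constructor <;> simp

lemma VV.succ {j : ℕ} {G R R' : RR S} (h : VV j G R R') (h0 : a0 R = 0) (h1 : b1 R = 0) :
    ∃ R₁ R₁', VV (j+1) G R₁ R₁' := by
  have h0' : a0 R' = 0 := by rw [← h.a0_rel, h0, mul_zero]
  have h1' : b1 R' = 0 := by rw [← h.b1_rel h0, h1, mul_zero]
  obtain ⟨Q, hQ⟩ : ∃ Q, P0 S * R = dl S ^ 2 * Q := by
    apply dl_sq_dvd
    · rw [a0_mul, h0, mul_zero]
    · rw [b1_mul, h0, h1, mul_zero, mul_zero, add_zero]
    · rw [star_mulRR, a0_mul, a0_star_P0, zero_mul]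
    · rw [star_mulRR, b1_mul, a0_star_P0, b1_star_P0, zero_mul, zero_mul, add_zero]
  obtain ⟨Q', hQ'⟩ : ∃ Q, P3 S * R' = dl S ^ 2 * Q := by
    apply dl_sq_dvd
    · rw [a0_mul, h0', mul_zero]
    · rw [b1_mul, h0', h1', mul_zero, mul_zero, add_zero]
    · rw [star_mulRR, a0_mul, a0_star_P3, zero_mul]
    · rw [star_mulRR, b1_mul, a0_star_P3, b1_star_P3, zero_mul, zero_mul, add_zero]
  refine ⟨Q, Q', ?_, ?_⟩
  · calc P0 S ^ (j+1) * G = P0 S * (P0 S ^ j * G) := by ring
      _ = dl S ^ (2*j) * (P0 S * R) := by rw [h.1]; ring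
      _ = _ := by rw [hQ]; ring
  · calc P3 S ^ (j+1) * G = P3 S * (P3 S ^ j * G) := by ring
      _ = dl S ^ (2*j) * (P3 S * R') := by rw [h.2]; ring
      _ = _ := by rw [hQ']; ring

end dom

section functionals

variable {S : Type} [CommRing S]

/-- Taylor coefficients in the variable `x₂ - x₁` -/
noncomputable def cc (k : ℕ) (p : P2 S) : Polynomial S := (taylor X p).coeff k

lemma cc_add (k : ℕ) (p q : P2 S) : cc k (p + q) = cc k p + cc k q := by simp [cc]

lemma cc_C_mul (k : ℕ) (c : Polynomial S) (p : P2 S) : cc k (C c * p) = c * cc k p := by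
  simp [cc, taylor_mul]

lemma cc_dlt_pow_mul (m i : ℕ) (q : P2 S) : cc (m + i) (dlt S ^ m * q) = cc i q := by
  have h : taylor X (dlt S) = (X : P2 S) := by simp [dlt, taylor_X, taylor_C]
  rw [cc, taylor_mul, taylor_pow, h, cc, add_comm, coeff_X_pow_mul]

lemma cc_zero (p : P2 S) : cc 0 p = e0 p := by simp [cc, e0, taylor_coeff_zero]
lemma cc_one (p : P2 S) : cc 1 p = e1 p := by simp [cc, e1, taylor_coeff_one]

/-- the linear conditions -/
noncomputable def LL (k : ℕ) (G : RR S) : Polynomial S :=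
  if k % 2 = 0 then cc k (P0 S ^ (k/2) * G).re + ff S * cc k (P0 S ^ (k/2) * G).im
  else 2 * cc k (P0 S ^ (k/2) * G).re + 2 * ff S * cc k (P0 S ^ (k/2) * G).im
    + df S * cc (k-1) (P0 S ^ (k/2) * G).im

end functionals

section dom2

variable {S : Type} [CommRing S] [IsDomain S] [CharZero S]

lemma LL_even {j : ℕ} {G R R' : RR S} (h : VV j G R R') : LL (2*j) G = a0 R := by
  have h1 : (2 * j) % 2 = 0 := by omega
  have h2 : 2 * j / 2 = j := by omega
  rw [LL, if_pos h1, h2, h.1, (re_dl_pow_mul _ _).1, (re_dl_pow_mul _ _).2]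
  have := cc_dlt_pow_mul (2*j) 0 R.re
  have h' := cc_dlt_pow_mul (2*j) 0 R.im
  rw [add_zero] at this h'
  rw [this, h', cc_zero, cc_zero, a0]

lemma LL_odd {j : ℕ} {G R R' : RR S} (h : VV j G R R') : LL (2*j+1) G = b1 R := by
  have h1 : ¬ (2 * j + 1) % 2 = 0 := by omega
  have h2 : (2 * j + 1) / 2 = j := by omega
  rw [LL, if_neg h1, h2, h.1, (re_dl_pow_mul _ _).1, (re_dl_pow_mul _ _).2,
    cc_dlt_pow_mul, cc_dlt_pow_mul]
  have h3 : 2 * j + 1 - 1 = 2 * j + 0 := by omega
  rw [h3, cc_dlt_pow_mul, cc_zero, cc_one, cc_one, b1]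

/-- structure lemma -/
lemma VV_of_LL (G : RR S) (j : ℕ) (h : ∀ i < 2 * j, LL i G = 0) : ∃ R R', VV j G R R' := by
  induction j with
  | zero => exact ⟨G, G, VV_zero G⟩
  | succ j ih =>
    obtain ⟨R, R', hV⟩ := ih (fun i hi => h i (by omega))
    refine hV.succ ?_ ?_
    · rw [← LL_even hV]; exact h _ (by omega)
    · rw [← LL_odd hV]; exact h _ (by omega)

end dom2

section degrees

variable {S : Type} [CommRing S]

/-- bidegree bound -/
def BD (n m : ℕ) (p : P2 S) : Prop := (∀ j, (p.coeff j).natDegree ≤ n) ∧ p.natDegree ≤ m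

lemma BD.add {n m : ℕ} {p q : P2 S} (hp : BD n m p) (hq : BD n m q) : BD n m (p + q) :=
  ⟨fun j => by rw [coeff_add]; exact (natDegree_add_le _ _).trans (max_le (hp.1 j) (hq.1 j)),
    (natDegree_add_le _ _).trans (max_le hp.2 hq.2)⟩

lemma BD.mono {n m n' m' : ℕ} {p : P2 S} (hp : BD n m p) (h : n ≤ n') (h' : m ≤ m') : BD n' m' p :=
  ⟨fun j => (hp.1 j).trans h, hp.2.trans h'⟩

lemma BD.mul {n m n' m' : ℕ} {p q : P2 S} (hp : BD n m p) (hq : BD n' m' q) :
    BD (n + n') (m + m') (p * q) := by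
  refine ⟨fun j => ?_, (natDegree_mul_le).trans (add_le_add hp.2 hq.2)⟩
  rw [coeff_mul]
  refine natDegree_sum_le_of_forall_le _ _ fun x _ => ?_
  exact (natDegree_mul_le).trans (add_le_add (hp.1 _) (hq.1 _))

lemma BD_C (c : Polynomial S) : BD c.natDegree 0 (C c) := by
  refine ⟨fun j => ?_, by simp⟩
  rw [coeff_C]
  split_ifs <;> simp

lemma BD_X : BD 0 1 (X : P2 S) := by
  refine ⟨fun j => ?_, natDegree_X_le⟩
  rw [coeff_X]
  split_ifs <;> simp

lemma BD_one : BD 0 0 (1 : P2 S) := by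
  have := BD_C (1 : Polynomial S)
  simpa using this

lemma BD.pow {n m : ℕ} {p : P2 S} (hp : BD n m p) (k : ℕ) : BD (n * k) (m * k) (p ^ k) := by
  induction k with
  | zero => simpa using BD_one
  | succ k ih => rw [pow_succ, Nat.mul_succ, Nat.mul_succ]; exact ih.mul hp

lemma BD_quot {n m : ℕ} {p q : P2 S} (h : p = dlt S * q) (hp : BD (n+1) (m+1) p) :
    BD n m q := by
  have hc : ∀ j, p.coeff (j+1) = q.coeff j - X * q.coeff (j+1) := by
    intro j
    rw [h, dlt, sub_mul, coeff_sub, coeff_X_mul, coeff_C_mul]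
  have h0 : p.coeff 0 = - (X * q.coeff 0) := by
    rw [h, dlt, sub_mul, coeff_sub, coeff_C_mul, mul_coeff_zero, coeff_X_zero]
    ring
  have hX : ∀ (r : Polynomial S), (X * r).natDegree ≤ n + 1 → r.natDegree ≤ n := by
    intro r hr
    rw [natDegree_le_iff_coeff_eq_zero] at hr ⊢
    intro N hN
    have := hr (N+1) (by omega)
    rwa [coeff_X_mul] at this
  constructor
  · intro j
    induction j with
    | zero =>
      apply hX
      rw [← natDegree_neg, ← h0]
      exact hp.1 0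
    | succ j ih =>
      apply hX
      have : X * q.coeff (j+1) = q.coeff j - p.coeff (j+1) := by rw [hc]; ring
      rw [this]
      exact (natDegree_sub_le _ _).trans (max_le (by omega) (hp.1 _))
  · rw [natDegree_le_iff_coeff_eq_zero]
    intro N hN
    -- descending induction from a large index
    have key : ∀ k N, m < N → q.natDegree < N + k → q.coeff N = 0 := by
      intro k
      induction k with
      | zero =>
        intro N _ h2
        exact coeff_eq_zero_of_natDegree_lt (by omega)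
      | succ k ih =>
        intro N h1 h2
        have h3 := ih (N+1) (by omega) (by omega)
        have h4 : p.coeff (N+1) = 0 := coeff_eq_zero_of_natDegree_lt (by have := hp.2; omega)
        rw [hc, h3, mul_zero, sub_zero] at h4
        exact h4
    exact key (q.natDegree + 1) N hN (by omega)

lemma e0_deg {n m : ℕ} {p : P2 S} (hp : BD n m p) : (e0 p).natDegree ≤ n + m := by
  rw [e0, eval_eq_sum_range]
  refine natDegree_sum_le_of_forall_le _ _ fun i hi => ?_
  rw [Finset.mem_range] at hi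
  refine (natDegree_mul_le).trans ?_
  refine add_le_add (hp.1 i) ((natDegree_X_pow_le i).trans ?_)
  have := hp.2
  omega

lemma BD_deriv {n m : ℕ} {p : P2 S} (hp : BD n m p) : BD n m (derivative p) := by
  refine ⟨fun j => ?_, (natDegree_derivative_le p).trans (by have := hp.2; omega)⟩
  rw [coeff_derivative]
  have : ((j : Polynomial S) + 1) = C ((j:S) + 1) := by simp
  rw [this]
  refine (natDegree_mul_C_le _ _).trans (hp.1 _)

lemma e1_deg {n m : ℕ} {p : P2 S} (hp : BD n m p) : (e1 p).natDegree ≤ n + m :=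
  e0_deg (BD_deriv hp)

/-- bidegree bound in the ring `RR` -/
def BR (n m : ℕ) (G : RR S) : Prop := 3 ≤ n ∧ 3 ≤ m ∧ BD n m G.re ∧ BD (n - 3) (m - 3) G.im

lemma deg_icast (n : ℤ) (p : Polynomial S) : ((n : Polynomial S) * p).natDegree ≤ p.natDegree := by
  refine (natDegree_mul_le).trans ?_
  rw [natDegree_intCast, zero_add]

lemma ff_deg : (ff S).natDegree ≤ 6 := by
  unfold ff
  have h6 := (deg_icast g3 (X ^ 6 : Polynomial S)).trans (natDegree_X_pow_le 6)
  have h4 := (deg_icast g2 (X ^ 4 : Polynomial S)).trans (natDegree_X_pow_le 4)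
  have h2 := (deg_icast g1 (X ^ 2 : Polynomial S)).trans (natDegree_X_pow_le 2)
  refine (natDegree_add_le _ _).trans (max_le ((natDegree_add_le _ _).trans (max_le
    ((natDegree_add_le _ _).trans (max_le h6 (by omega))) (by omega))) ?_)
  rw [natDegree_intCast]; omega

lemma BD_f1 : BD 6 0 (f1 S) := (BD_C _).mono ff_deg le_rfl

lemma BD_int (n : ℤ) : BD 0 0 (n : P2 S) := by
  have h := BD_C ((n : ℤ) : Polynomial S)
  rw [natDegree_intCast, map_intCast] at h
  exact h

lemma BD_f2 : BD 0 6 (f2 S) := by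
  unfold f2
  have h6 := (BD_int (S := S) g3).mul (BD_X.pow 6)
  have h4 := (BD_int (S := S) g2).mul (BD_X.pow 4)
  have h2 := (BD_int (S := S) g1).mul (BD_X.pow 2)
  exact (((h6.add (h4.mono (by norm_num) (by norm_num))).add (h2.mono (by norm_num) (by norm_num))).add
    ((BD_int g0).mono (by norm_num) (by norm_num))).mono (by norm_num) (by norm_num)

lemma BD_DD : BD 6 6 (DD S) := by
  have := (BD_f1 (S := S)).mul (BD_f2 (S := S))
  exact this.mono le_rfl le_rfl

lemma BR.mul {n m n' m' : ℕ} {G H : RR S} (hG : BR n m G) (hH : BR n' m' H) :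
    BR (n + n') (m + m') (G * H) := by
  obtain ⟨h1, h2, h3, h4⟩ := hG
  obtain ⟨g1, g2, g3, g4⟩ := hH
  refine ⟨by omega, by omega, ?_, ?_⟩
  · rw [QuadraticAlgebra.re_mul]
    refine (h3.mul g3).add ?_
    refine ((BD_DD.mul h4).mul g4).mono (by omega) (by omega)
  · rw [QuadraticAlgebra.im_mul]
    simp only [zero_mul, add_zero]
    refine ((h3.mul g4).mono (by omega) (by omega)).add ((h4.mul g3).mono (by omega) (by omega))

lemma BD_two {n m : ℕ} : BD n m (2 : P2 S) := by
  have h := (BD_one (S := S)).add BD_one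
  have : (1 : P2 S) + 1 = 2 := by norm_num
  rw [this] at h
  exact h.mono (Nat.zero_le _) (Nat.zero_le _)

lemma BR_P0 : BR 6 6 (P0 S) :=
  ⟨by norm_num, by norm_num, (BD_f1.mono le_rfl (by norm_num)).add (BD_f2.mono (by norm_num) le_rfl),
    BD_two⟩

lemma BD_CX : BD 1 0 (C X : P2 S) := (BD_C _).mono natDegree_X_le le_rfl

lemma BR_P3 : BR 6 6 (P3 S) := by
  refine ⟨by norm_num, by norm_num, ?_, ?_⟩
  · refine ((BD_f1.mul (BD_X.pow 6)).mono (by norm_num) (by norm_num)).add ?_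
    exact (BD_f2.mul (BD_CX.pow 6)).mono (by norm_num) (by norm_num)
  · exact (((BD_two (n := 0) (m := 0)).mul (BD_CX.pow 3)).mul (BD_X.pow 3)).mono (by norm_num) (by norm_num)

lemma BR.pow_mul {n m k : ℕ} {P G : RR S} (hP : BR 6 6 P) (hG : BR n m G) :
    BR (n + 6 * k) (m + 6 * k) (P ^ k * G) := by
  induction k with
  | zero => simpa using hG
  | succ k ih =>
    have : P ^ (k+1) * G = P * (P ^ k * G) := by ring
    rw [this]
    have := hP.mul ih
    refine ⟨by omega, by omega, this.2.2.1.mono (by omega) (by omega),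
      this.2.2.2.mono (by omega) (by omega)⟩

lemma df_deg : (df S).natDegree ≤ 5 := by
  unfold df
  have hc : ∀ (n : ℕ) (c : ℕ), ((c : Polynomial S) * X ^ n).natDegree ≤ n := by
    intro n c
    refine (natDegree_mul_le).trans ?_
    rw [natDegree_natCast, zero_add]
    exact natDegree_X_pow_le n
  have h6 := (deg_icast g3 (6 * X ^ 5 : Polynomial S)).trans (hc 5 6)
  have h4 := (deg_icast g2 (4 * X ^ 3 : Polynomial S)).trans (hc 3 4)
  have h2 := (deg_icast g1 (2 * X : Polynomial S)).trans (by simpa using hc 1 2)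
  exact (natDegree_add_le _ _).trans (max_le ((natDegree_add_le _ _).trans (max_le
    h6 (by omega))) (by omega))

lemma a0_deg {n m : ℕ} {G : RR S} (hG : BR n m G) : (a0 G).natDegree ≤ n + m := by
  obtain ⟨h1, h2, h3, h4⟩ := hG
  refine (natDegree_add_le _ _).trans (max_le (e0_deg h3) ?_)
  refine (natDegree_mul_le).trans ?_
  have hf : (ff S).natDegree ≤ 6 := ff_deg
  have := e0_deg h4
  omega

lemma b1_deg {n m : ℕ} {G : RR S} (hG : BR n m G) : (b1 G).natDegree ≤ n + m := by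
  obtain ⟨h1, h2, h3, h4⟩ := hG
  have hf : (ff S).natDegree ≤ 6 := ff_deg
  have h2c : (2 : Polynomial S).natDegree ≤ 0 := by
    have : (2 : Polynomial S) = C 2 := (map_ofNat C 2).symm
    rw [this]; simp
  have e3 := e1_deg h3
  have e4 := e0_deg h4
  have e5 := e1_deg h4
  refine (natDegree_add_le _ _).trans (max_le ((natDegree_add_le _ _).trans (max_le ?_ ?_)) ?_)
  · refine (natDegree_mul_le).trans ?_
    omega
  · refine (natDegree_mul_le).trans ?_
    have : (2 * ff S).natDegree ≤ 6 := (natDegree_mul_le).trans (by omega)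
    omega
  · refine (natDegree_mul_le).trans ?_
    have : (df S).natDegree ≤ 5 := df_deg
    omega

end degrees

section dom3

variable {S : Type} [CommRing S] [IsDomain S] [CharZero S]

lemma BR_quot {n m : ℕ} {G R : RR S} (h : G = dl S ^ 1 * R) (hn : 3 ≤ n) (hm : 3 ≤ m)
    (hG : BR (n+1) (m+1) G) : BR n m R := by
  obtain ⟨_, _, h3, h4⟩ := hG
  have e1 := (re_dl_pow_mul 1 R).1
  have e2 := (re_dl_pow_mul 1 R).2
  rw [← h, pow_one] at e1 e2
  refine ⟨hn, hm, BD_quot e1 h3, BD_quot e2 (h4.mono (by omega) (by omega))⟩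

lemma BR_quot_pow {n m k : ℕ} {G R : RR S} (h : G = dl S ^ k * R) (hn : 3 ≤ n) (hm : 3 ≤ m)
    (hG : BR (n+k) (m+k) G) : BR n m R := by
  induction k generalizing G with
  | zero => simpa [h] using hG
  | succ k ih =>
    refine ih (G := dl S ^ k * R) rfl ?_
    refine BR_quot (G := G) ?_ (by omega) (by omega) hG
    rw [h]; ring

/-- degree bound for the linear conditions -/
lemma LL_deg {n m k : ℕ} {G : RR S} (hG : BR n m G) (h : ∀ i < k, LL i G = 0) :
    (LL k G).natDegree ≤ n + m + k := by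
  obtain ⟨j, hj | hj⟩ : ∃ j, k = 2 * j ∨ k = 2 * j + 1 := ⟨k / 2, by omega⟩
  · obtain ⟨R, R', hV⟩ := VV_of_LL G j (fun i hi => h i (by omega))
    have hR' : BR (n + 4 * j) (m + 4 * j) R' := by
      have h1 := hG.1
      have h2 := hG.2.1
      refine BR_quot_pow (k := 2 * j) hV.2 (by omega) (by omega) ?_
      have := BR_P3.pow_mul (k := j) hG
      refine ⟨by omega, by omega, this.2.2.1.mono (by omega) (by omega),
        this.2.2.2.mono (by omega) (by omega)⟩
    have h1 := a0_deg hR'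
    rw [hj, LL_even hV]
    rcases eq_or_ne (a0 R) 0 with h0 | h0
    · rw [h0]; simp
    · rw [← hV.a0_rel, natDegree_mul (pow_ne_zero _ X_ne_zero) h0, natDegree_X_pow] at h1
      omega
  · obtain ⟨R, R', hV⟩ := VV_of_LL G j (fun i hi => h i (by omega))
    have hR' : BR (n + 4 * j) (m + 4 * j) R' := by
      have h1 := hG.1
      have h2 := hG.2.1
      refine BR_quot_pow (k := 2 * j) hV.2 (by omega) (by omega) ?_
      have := BR_P3.pow_mul (k := j) hG
      refine ⟨by omega, by omega, this.2.2.1.mono (by omega) (by omega),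
        this.2.2.2.mono (by omega) (by omega)⟩
    have h1 := b1_deg hR'
    have h00 : a0 R = 0 := by rw [← LL_even hV]; exact h _ (by omega)
    rw [hj, LL_odd hV]
    rcases eq_or_ne (b1 R) 0 with h0 | h0
    · rw [h0]; simp
    · rw [← hV.b1_rel h00, natDegree_mul (pow_ne_zero _ X_ne_zero) h0, natDegree_X_pow] at h1
      omega

end dom3

end Run7.h441.JM.Mo
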