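import Pool.Agent.Run7.h441.JM.Mo.Norm
import Pool.Agent.Run7.h441.JM.Mo.Ndvd

/-! Construction of the auxiliary polynomial. -/

set_option autoImplicit false
set_option linter.unusedSectionVars false

open Polynomial

namespace Run7.h441.JM.Mo

open Pool.Agent.H106R2

def SiegelStatement : Prop := ∀ {ι κ : Type} [Fintype ι] [Fintype κ] [DecidableEq ι] [DecidableEq κ]
    (A : Matrix κ ι ℤ) (r : ℕ)
    (_ : (A.map (Int.cast : ℤ → ℚ)).rank ≤ r) (_ : r < Fintype.card ι) (B : ℝ) (_ : 1 ≤ B)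
    (_ : ∀ i j, |(A i j : ℝ)| ≤ B),
    ∃ t : ι → ℤ, t ≠ 0 ∧ A.mulVec t = 0 ∧
      ∀ j, |(t j : ℝ)| ≤ (Fintype.card ι * B) ^ ((r : ℝ) / (Fintype.card ι - r))

variable [Gc]

theorem aux_of (hS : SiegelStatement)
    (hLL : ∀ {n₁ n₂ : ℕ} (k : ℕ) (c : Idx n₁ n₂ → ℤ),
      LL k (Gof c) = ∑ i, C (c i) * LL k (Gof (S := ℤ) (Pi.single i 1)))
    (hrank : ∀ (n₁ n₂ e D : ℕ) (_ : 3 ≤ n₁) (_ : 3 ≤ n₂),
      ((Amat n₁ n₂ e D).map (Int.cast : ℤ → ℚ)).rank ≤ 2 * e * (n₁ + n₂) + 2 * e ^ 2 + e)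
    (hBR : ∀ {n₁ n₂ : ℕ} (_ : 3 ≤ n₁) (_ : 3 ≤ n₂) (c : Idx n₁ n₂ → ℤ), BR n₁ n₂ (Gof c))
    (hne : ∀ {n₁ n₂ : ℕ} {c : Idx n₁ n₂ → ℤ} (_ : c ≠ 0), Gof c ≠ 0) : AuxStatement := by
  obtain ⟨C1, hC1, hentry⟩ := entry_bound
  have hp := one_le_hh
  have hL : 0 ≤ Real.log hh := Real.log_nonneg hp
  refine ⟨22 + 2 * C1 + 3 * Real.log hh, by positivity, ?_⟩
  intro n₁ n₂ e h₁ h₂ he₁ he₂ r N hr hN hrN
  set r0 : ℕ := 2 * e * (n₁ + n₂) + 2 * e ^ 2 + e with hr0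
  have hrr : r = (r0 : ℝ) := by rw [hr, hr0]; push_cast; ring
  have hcard : Fintype.card (Idx n₁ n₂) = (n₁ + 1) * (n₂ + 1) + (n₁ - 2) * (n₂ - 2) := by
    simp [Fintype.card_sum, Fintype.card_prod]
  have hNN : N = (Fintype.card (Idx n₁ n₂) : ℝ) := by
    rw [hN, hcard]
    have e1 : ((n₁ - 2 : ℕ) : ℝ) = (n₁ : ℝ) - 2 := by
      rw [Nat.cast_sub (by omega)]; norm_num
    have e2 : ((n₂ - 2 : ℕ) : ℝ) = (n₂ : ℝ) - 2 := by
      rw [Nat.cast_sub (by omega)]; norm_num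
    push_cast
    rw [e1, e2]
  have hlt : r0 < Fintype.card (Idx n₁ n₂) := by
    rw [hrr, hNN] at hrN
    exact_mod_cast hrN
  -- the size of the coefficient matrix
  obtain ⟨B, hB⟩ : ∃ B : ℝ, B = Real.exp (C1 * (n₂ + e)) := ⟨_, rfl⟩
  have hB1 : 1 ≤ B := by rw [hB]; exact Real.one_le_exp (by positivity)
  set D : ℕ := 1 + ∑ k ∈ Finset.range (2 * e), ∑ i : Idx n₁ n₂,
    (LL k (Gof (S := ℤ) (Pi.single i 1))).natDegree with hD
  have hDdeg : ∀ k < 2 * e, ∀ i : Idx n₁ n₂, (LL k (Gof (S := ℤ) (Pi.single i 1))).natDegree < D := by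
    intro k hk i
    have h1 : (LL k (Gof (S := ℤ) (Pi.single i 1))).natDegree ≤
        ∑ i : Idx n₁ n₂, (LL k (Gof (S := ℤ) (Pi.single i 1))).natDegree :=
      Finset.single_le_sum (f := fun i => (LL k (Gof (S := ℤ) (Pi.single i 1))).natDegree)
        (fun _ _ => Nat.zero_le _) (Finset.mem_univ i)
    have h2 : ∑ i : Idx n₁ n₂, (LL k (Gof (S := ℤ) (Pi.single i 1))).natDegree ≤
        ∑ k ∈ Finset.range (2 * e), ∑ i : Idx n₁ n₂,
          (LL k (Gof (S := ℤ) (Pi.single i 1))).natDegree :=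
      Finset.single_le_sum (f := fun k => ∑ i : Idx n₁ n₂,
        (LL k (Gof (S := ℤ) (Pi.single i 1))).natDegree)
        (fun _ _ => Nat.zero_le _) (Finset.mem_range.mpr hk)
    omega
  obtain ⟨t, ht0, htA, htb⟩ := hS (Amat n₁ n₂ e D) r0 (hrank n₁ n₂ e D h₁ h₂) hlt B hB1
    (fun kd i => by rw [hB]; exact hentry n₁ n₂ e D kd i)
  obtain ⟨T, hT⟩ : ∃ T : ℝ, T = (Fintype.card (Idx n₁ n₂) * B) ^ ((r0 : ℝ) / (Fintype.card (Idx n₁ n₂) - r0)) :=
    ⟨_, rfl⟩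
  rw [← hT] at htb
  have hLL0 : ∀ k < 2 * e, LL k (Gof t) = 0 := by
    intro k hk
    ext d
    rw [hLL, finsetSum_coeff, coeff_zero]
    by_cases hd : d < D
    · have h := congrFun htA (⟨k, hk⟩, ⟨d, hd⟩)
      rw [Matrix.mulVec, dotProduct] at h
      simp only [Amat, Pi.zero_apply] at h
      rw [← h]
      refine Finset.sum_congr rfl fun i _ => ?_
      rw [coeff_C_mul, mul_comm]
    · refine Finset.sum_eq_zero fun i _ => ?_
      rw [coeff_C_mul, coeff_eq_zero_of_natDegree_lt (lt_of_lt_of_le (hDdeg k hk i) (by omega)),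
        mul_zero]
  obtain ⟨R, R', hV⟩ := VV_of_LL (Gof t) e hLL0
  have hG := hBR h₁ h₂ t
  have hG0 := hne ht0
  have hBP0 : BR (n₁ + 4 * e + 2 * e) (n₂ + 4 * e + 2 * e) (P0 ℤ ^ e * Gof t) := by
    have := BR_P0.pow_mul (k := e) hG
    refine ⟨by omega, by omega, this.2.2.1.mono (by omega) (by omega),
      this.2.2.2.mono (by omega) (by omega)⟩
  have hBP3 : BR (n₁ + 4 * e + 2 * e) (n₂ + 4 * e + 2 * e) (P3 ℤ ^ e * Gof t) := by
    have := BR_P3.pow_mul (k := e) hG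
    refine ⟨by omega, by omega, this.2.2.1.mono (by omega) (by omega),
      this.2.2.2.mono (by omega) (by omega)⟩
  have hR : BR (n₁ + 4 * e) (n₂ + 4 * e) R :=
    BR_quot_pow (k := 2 * e) hV.1 (by omega) (by omega) hBP0
  have hR' : BR (n₁ + 4 * e) (n₂ + 4 * e) R' :=
    BR_quot_pow (k := 2 * e) hV.2 (by omega) (by omega) hBP3
  obtain ⟨Q, hQ, hQ0, hQB⟩ := norm_dvd hG0 hG hV he₁ he₂
  -- sizes
  have hcard1 : (1:ℝ) ≤ Fintype.card (Idx n₁ n₂) := by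
    have : 1 ≤ Fintype.card (Idx n₁ n₂) := by omega
    exact_mod_cast this
  have hbase : 1 ≤ (Fintype.card (Idx n₁ n₂) : ℝ) * B := one_le_mul_of_one_le_of_one_le hcard1 hB1
  have hrN' : (r0 : ℝ) < Fintype.card (Idx n₁ n₂) := by exact_mod_cast hlt
  have hexpo : 0 ≤ (r0 : ℝ) / (Fintype.card (Idx n₁ n₂) - r0) :=
    div_nonneg (Nat.cast_nonneg _) (by linarith)
  have hT1 : 1 ≤ T := by rw [hT]; exact Real.one_le_rpow hbase hexpo
  obtain ⟨M0, hM0⟩ : ∃ M0 : ℝ, M0 = 2 * hh * (Fintype.card (Idx n₁ n₂)) * T := ⟨_, rfl⟩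
  have hM01 : 1 ≤ M0 := by
    rw [hM0]
    have q1 : 1 ≤ 2 * hh := by linarith
    have q2 : 1 ≤ (Fintype.card (Idx n₁ n₂) : ℝ) * T := one_le_mul_of_one_le_of_one_le hcard1 hT1
    have q3 := one_le_mul_of_one_le_of_one_le q1 q2
    linarith
  have hlG : lR (Gof t) ≤ M0 := by
    rw [hM0]
    refine (lR_Gof t T htb).trans ?_
    have q2 : 1 ≤ (Fintype.card (Idx n₁ n₂) : ℝ) * T := one_le_mul_of_one_le_of_one_le hcard1 hT1
    nlinarith
  obtain ⟨M1, hM1⟩ : ∃ M1 : ℝ, M1 = 4 ^ (2 * n₂ + 6 * e) * (8 * hh) ^ e * M0 ^ 2 := ⟨_, rfl⟩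
  have hM1pos : 0 < M1 := by rw [hM1]; positivity
  have hM11 : 1 ≤ M1 := by
    rw [hM1]
    have a1 : (1:ℝ) ≤ 4 ^ (2 * n₂ + 6 * e) := one_le_pow₀ (by norm_num)
    have a2 : (1:ℝ) ≤ (8 * hh) ^ e := one_le_pow₀ (by linarith)
    have a3 : (1:ℝ) ≤ M0 ^ 2 := one_le_pow₀ hM01
    exact one_le_mul_of_one_le_of_one_le (one_le_mul_of_one_le_of_one_le a1 a2) a3
  have hexpΛ : Real.exp (Real.log M1) = M1 := Real.exp_log hM1pos
  have hM0M1 : (4:ℝ) ^ (n₂ + 6 * e) * ((8 * hh) ^ e * M0) ≤ M1 := by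
    rw [hM1]
    have a1 : (4:ℝ) ^ (n₂ + 6 * e) ≤ 4 ^ (2 * n₂ + 6 * e) := pow_le_pow_right₀ (by norm_num) (by omega)
    have a2 : M0 ≤ M0 ^ 2 := by nlinarith
    calc (4:ℝ) ^ (n₂ + 6 * e) * ((8 * hh) ^ e * M0) ≤ 4 ^ (2 * n₂ + 6 * e) * ((8 * hh) ^ e * M0 ^ 2) :=
          mul_le_mul a1 (mul_le_mul_of_nonneg_left a2 (by positivity))
            (mul_nonneg (by positivity) (by linarith)) (by positivity)
      _ = _ := by ring
  have hM0M1' : M0 ≤ M1 := by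
    refine le_trans ?_ hM0M1
    have a1 : (1:ℝ) ≤ 4 ^ (n₂ + 6 * e) := one_le_pow₀ (by norm_num)
    have a2 : (1:ℝ) ≤ (8 * hh) ^ e := one_le_pow₀ (by linarith)
    have a3 : M0 ≤ (8 * hh) ^ e * M0 := le_mul_of_one_le_left (by linarith) a2
    exact le_trans a3 (le_mul_of_one_le_left (by linarith) a1)
  have hl1nn : ∀ p : Polynomial ℤ, 0 ≤ l1 p := by
    intro p
    unfold l1
    exact Finset.sum_nonneg fun i _ => abs_nonneg _
  have hl2nn : ∀ p : P2 ℤ, 0 ≤ l2 p := by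
    intro p
    unfold l2
    exact Finset.sum_nonneg fun i _ => hl1nn _
  have hre : ∀ G : RR ℤ, l2 G.re ≤ lR G := by
    intro G
    have := hl2nn G.im
    unfold lR
    nlinarith
  have him : ∀ G : RR ℤ, l2 G.im ≤ lR G := by
    intro G
    have := hl2nn G.im
    have := hl2nn G.re
    unfold lR
    nlinarith
  have hCB : ∀ p : P2 ℤ, l2 p ≤ M1 → CB (Real.log M1) p := by
    intro p hp i j
    rw [hexpΛ]
    exact le_trans (coeff_le_l2 p i j) hp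
  have hquot : ∀ (F U : RR ℤ), F = dl ℤ ^ (2 * e) * U → BR (n₁ + 4 * e + 2 * e) (n₂ + 4 * e + 2 * e) F →
      lR F ≤ (8 * hh) ^ e * M0 → l2 U.re ≤ M1 ∧ l2 U.im ≤ M1 := by
    intro F U hFU hBF hlF
    have e1 := (re_dl_pow_mul (2 * e) U).1
    have e2 := (re_dl_pow_mul (2 * e) U).2
    rw [← hFU] at e1 e2
    constructor
    · refine le_trans (quot_bound e1 (d := n₂ + 6 * e) (by have := hBF.2.2.1.2; omega)) ?_
      refine le_trans ?_ hM0M1
      have := hre F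
      exact mul_le_mul_of_nonneg_left (le_trans this hlF) (by positivity)
    · refine le_trans (quot_bound e2 (d := n₂ + 6 * e) (by have := hBF.2.2.2.2; omega)) ?_
      refine le_trans ?_ hM0M1
      have := him F
      exact mul_le_mul_of_nonneg_left (le_trans this hlF) (by positivity)
  have h48 : (4 * hh) ^ e ≤ (8 * hh) ^ e := pow_le_pow_left₀ (by linarith) (by linarith) e
  have hlG0 : 0 ≤ lR (Gof t) := le_trans (hl2nn _) (hre (Gof t))
  have hR1 := hquot _ _ hV.1 hBP0 (le_trans (lR_P0_pow e (Gof t))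
    (mul_le_mul h48 hlG hlG0 (by positivity)))
  have hR2 := hquot _ _ hV.2 hBP3 (le_trans (lR_P3_pow e (Gof t))
    (mul_le_mul h48 hlG hlG0 (by positivity)))
  have hnormdeg : ((Gof t).re ^ 2 - DD ℤ * (Gof t).im ^ 2).natDegree ≤ 2 * n₂ := by
    have d1 : ((Gof t).re ^ 2).natDegree ≤ 2 * n₂ := by
      refine le_trans natDegree_pow_le ?_
      have := hG.2.2.1.2
      omega
    have d2 : (DD ℤ * (Gof t).im ^ 2).natDegree ≤ 2 * n₂ := by
      refine le_trans natDegree_mul_le ?_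
      have a1 := (BD_DD (S := ℤ)).2
      have a2 := hG.2.2.2.2
      have a3 : ((Gof t).im ^ 2).natDegree ≤ 2 * (Gof t).im.natDegree := natDegree_pow_le
      omega
    exact le_trans (natDegree_sub_le _ _) (max_le d1 d2)
  have hQ1 : l2 Q ≤ M1 := by
    refine le_trans (quot_bound hQ (d := 2 * n₂) hnormdeg) ?_
    have a0 := l2_norm (Gof t)
    have a4 : 0 ≤ lR (Gof t) := le_trans (hl2nn _) (hre (Gof t))
    have a5 : lR (Gof t) ^ 2 ≤ M0 ^ 2 := pow_le_pow_left₀ a4 hlG 2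
    rw [hM1]
    have a1 : (4:ℝ) ^ (2 * n₂) ≤ 4 ^ (2 * n₂ + 6 * e) := pow_le_pow_right₀ (by norm_num) (by omega)
    have a2 : (1:ℝ) ≤ (8 * hh) ^ e := one_le_pow₀ (by linarith)
    calc (4:ℝ) ^ (2 * n₂) * l2 ((Gof t).re ^ 2 - DD ℤ * (Gof t).im ^ 2)
        ≤ 4 ^ (2 * n₂ + 6 * e) * M0 ^ 2 :=
          mul_le_mul a1 (le_trans a0 a5) (hl2nn _) (by positivity)
      _ ≤ (8 * hh) ^ e * (4 ^ (2 * n₂ + 6 * e) * M0 ^ 2) :=
          le_mul_of_one_le_left (by positivity) a2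
      _ = _ := by ring
  refine ⟨Gof t, R, R', Q, Real.log M1, hG0, hQ0, hG, hV, hR, hR', hQ, hQB, Real.log_nonneg hM11,
    hCB _ (le_trans (hre _) (le_trans hlG hM0M1')), hCB _ (le_trans (him _) (le_trans hlG hM0M1')),
    hCB _ hR1.1, hCB _ hR1.2, hCB _ hR2.1, hCB _ hR2.2, hCB _ hQ1, ?_⟩
  -- final estimate
  have hNpos : 0 < N := by rw [hNN]; linarith
  have hTpos : 0 < T := by linarith
  have hlogT : Real.log T = r / (N - r) * (Real.log N + C1 * (n₂ + e)) := by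
    rw [hT, Real.log_rpow (by linarith), Real.log_mul (by linarith) (by linarith), hB, Real.log_exp,
      hrr, hNN]
  have hlogM0 : Real.log M0 = Real.log 2 + Real.log hh + Real.log N + Real.log T := by
    rw [hM0, ← hNN, Real.log_mul (by positivity) (by linarith), Real.log_mul (by positivity) (by linarith),
      Real.log_mul (by norm_num) (by linarith)]
  have hlogM1 : Real.log M1 = (2 * n₂ + 6 * e) * Real.log 4 + e * (Real.log 8 + Real.log hh)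
      + 2 * Real.log M0 := by
    rw [hM1, Real.log_mul (by positivity) (by positivity), Real.log_mul (by positivity) (by positivity),
      Real.log_pow, Real.log_pow, Real.log_pow, Real.log_mul (by norm_num) (by linarith)]
    push_cast
    ring
  have l2' : Real.log 2 ≤ 1 := by have := Real.log_two_lt_d9; linarith
  have l2p : 0 ≤ Real.log 2 := Real.log_nonneg (by norm_num)
  have l4 : Real.log 4 ≤ 2 := by
    have : (4:ℝ) = 2 ^ 2 := by norm_num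
    rw [this, Real.log_pow]
    push_cast
    linarith
  have l8 : Real.log 8 ≤ 3 := by
    have : (8:ℝ) = 2 ^ 3 := by norm_num
    rw [this, Real.log_pow]
    push_cast
    linarith
  have hlogN0 : 0 ≤ Real.log N := Real.log_nonneg (by rw [hNN]; exact hcard1)
  have hlogN : Real.log N ≤ 1 + n₁ + n₂ := by
    have hNle : N ≤ 2 * (2 ^ n₁ * 2 ^ n₂) := by
      have n1' : ((n₁:ℝ) + 1) ≤ 2 ^ n₁ := by exact_mod_cast Nat.lt_two_pow_self
      have m1' : ((n₂:ℝ) + 1) ≤ 2 ^ n₂ := by exact_mod_cast Nat.lt_two_pow_self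
      have hn1 : (3:ℝ) ≤ n₁ := by exact_mod_cast h₁
      have hn2 : (3:ℝ) ≤ n₂ := by exact_mod_cast h₂
      have a1 : ((n₁:ℝ) + 1) * (n₂ + 1) ≤ 2 ^ n₁ * 2 ^ n₂ :=
        mul_le_mul n1' m1' (by positivity) (by positivity)
      have a2 : ((n₁:ℝ) - 2) * (n₂ - 2) ≤ ((n₁:ℝ) + 1) * (n₂ + 1) := by nlinarith
      rw [hN]
      linarith
    have := Real.log_le_log hNpos hNle
    rw [Real.log_mul (by norm_num) (by positivity), Real.log_mul (by positivity) (by positivity),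
      Real.log_pow, Real.log_pow] at this
    have b1 : (n₁:ℝ) * Real.log 2 ≤ n₁ * 1 := mul_le_mul_of_nonneg_left l2' (by positivity)
    have b2 : (n₂:ℝ) * Real.log 2 ≤ n₂ * 1 := mul_le_mul_of_nonneg_left l2' (by positivity)
    linarith
  have hρ : 0 ≤ r / (N - r) := by
    rw [hrr, hNN]; exact hexpo
  have hn1 : (3:ℝ) ≤ n₁ := by exact_mod_cast h₁
  have hn2 : (3:ℝ) ≤ n₂ := by exact_mod_cast h₂
  have he0 : (0:ℝ) ≤ e := Nat.cast_nonneg _
  rw [hlogM1, hlogM0, hlogT]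
  have c1 : (2 * (n₂:ℝ) + 6 * e) * Real.log 4 ≤ (2 * (n₂:ℝ) + 6 * e) * 2 :=
    mul_le_mul_of_nonneg_left l4 (by positivity)
  have c2 : (e:ℝ) * Real.log 8 ≤ e * 3 := mul_le_mul_of_nonneg_left l8 he0
  have c3 : r / (N - r) * (Real.log N + C1 * (n₂ + e)) ≤
      (1 + C1) * (r / (N - r) * (n₂ + e + Real.log N)) := by
    have : Real.log N + C1 * (n₂ + e) ≤ (1 + C1) * (n₂ + e + Real.log N) := by
      nlinarith [mul_nonneg hC1.le hlogN0]
    calc r / (N - r) * (Real.log N + C1 * (n₂ + e)) ≤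
        r / (N - r) * ((1 + C1) * (n₂ + e + Real.log N)) := mul_le_mul_of_nonneg_left this hρ
      _ = _ := by ring
  obtain ⟨Z, hZ⟩ : ∃ Z : ℝ, Z = r / (N - r) * (n₂ + e + Real.log N) := ⟨_, rfl⟩
  rw [← hZ] at c3 ⊢
  have hZ0 : 0 ≤ Z := by rw [hZ]; exact mul_nonneg hρ (by linarith)
  have z1 := mul_nonneg hC1.le hZ0
  have z2 := mul_nonneg hC1.le (show (0:ℝ) ≤ n₁ + n₂ + e by linarith)
  have z3 := mul_nonneg hL hZ0
  have z4 := mul_nonneg hL (show (0:ℝ) ≤ n₁ + n₂ + e by linarith)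
  have z5 := mul_nonneg hL (show (0:ℝ) ≤ (n₁:ℝ) - 1 by linarith)
  have z6 := mul_nonneg hL (show (0:ℝ) ≤ (n₂:ℝ) by linarith)
  have z7 := mul_nonneg hL he0
  have zz : (22 + 2 * C1 + 3 * Real.log hh) * (Z + n₁ + n₂ + e) = 22 * (Z + n₁ + n₂ + e)
      + 2 * (C1 * Z) + 2 * (C1 * (n₁ + n₂ + e)) + 3 * (Real.log hh * Z)
      + 3 * (Real.log hh * (n₁ - 1)) + 3 * Real.log hh + 3 * (Real.log hh * n₂)
      + 3 * (Real.log hh * e) := by ring
  have zc : (1 + C1) * Z = Z + C1 * Z := by ring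
  rw [zc] at c3
  have ze : (e : ℝ) * (Real.log 8 + Real.log hh) = e * Real.log 8 + Real.log hh * e := by ring
  rw [ze]
  linarith

end Run7.h441.JM.Mo
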