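import Pool.Agent.Run7.h441.JM.Mo.V2
import Pool.Agent.Run7.h441.JM.Mo.Iface
import Pool.Agent.H437R2.Man.V5a

/-! Main inequality: the local expansion map. -/

set_option autoImplicit false
set_option linter.unusedSectionVars false

open PowerSeries

namespace Run7.h441.JM.Mo

open Pool.Agent.H437R2.Man (AA in1 in2 co co_in co_mul co_add co_sum cz cz_eq cz_in1 cz_in2
  co_mul_ne co_mul_min exists_min)

variable [Gc]

section theta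

variable {K : Type} [Field K]

/-- substitution of the expansions in a polynomial -/
noncomputable def th (a₁ a₂ : K) : P2 ℤ →+* AA K :=
  Polynomial.eval₂RingHom ((in1 (K := K)).comp (Polynomial.eval₂RingHom (Int.castRingHom _) (xs a₁)))
    (in2 (xs a₂))

lemma th_C (a₁ a₂ : K) (c : Polynomial ℤ) : th a₁ a₂ (Polynomial.C c) =
    in1 (Polynomial.eval₂ (Int.castRingHom _) (xs a₁) c) := by
  simp [th]

lemma th_X (a₁ a₂ : K) : th a₁ a₂ Polynomial.X = in2 (xs a₂) := by simp [th]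

lemma th_CX (a₁ a₂ : K) : th a₁ a₂ (Polynomial.C Polynomial.X) = in1 (xs a₁) := by
  rw [th_C]; simp

lemma th_f1 (a₁ a₂ : K) : th a₁ a₂ (f1 ℤ) = in1 (fv (xs a₁)) := by
  rw [f1, th_C, ff, fv]
  congr 1
  have hi : ∀ n : ℤ, Polynomial.eval₂ (Int.castRingHom K⟦X⟧) (xs a₁) (n : Polynomial ℤ) = n :=
    fun n => map_intCast (Polynomial.eval₂RingHom (Int.castRingHom K⟦X⟧) (xs a₁)) n
  simp only [Polynomial.eval₂_add, Polynomial.eval₂_mul, Polynomial.eval₂_pow, Polynomial.eval₂_X,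
    hi]

lemma th_f2 (a₁ a₂ : K) : th a₁ a₂ (f2 ℤ) = in2 (fv (xs a₂)) := by
  simp only [f2, fv, map_add, map_mul, map_pow, th_X, map_intCast]

lemma th_dlt (a₁ a₂ : K) : th a₁ a₂ (dlt ℤ) = in2 (xs a₂) - in1 (xs a₁) := by
  rw [dlt, map_sub, th_X, th_CX]

lemma th_eq {n m : ℕ} {p : P2 ℤ} (hp : BD n m p) (a₁ a₂ : K) : th a₁ a₂ p =
    ∑ b ∈ Finset.range (m + 1), ∑ a ∈ Finset.range (n + 1),
      in1 (PowerSeries.C (((p.coeff b).coeff a : ℤ) : K) * xs a₁ ^ a) * in2 (xs a₂ ^ b) := by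
  have h1 : p = ∑ b ∈ Finset.range (m + 1), Polynomial.C (p.coeff b) * Polynomial.X ^ b := by
    exact Polynomial.as_sum_range_C_mul_X_pow' p (by have := hp.2; omega)
  conv_lhs => rw [h1]
  rw [map_sum]
  refine Finset.sum_congr rfl fun b _ => ?_
  rw [map_mul, map_pow, th_X, ← map_pow in2, th_C, ← Finset.sum_mul]
  congr 1
  rw [← map_sum]
  congr 1
  rw [Polynomial.eval₂_eq_sum_range' _ (n := n+1) (by have := hp.1 b; omega)]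
  refine Finset.sum_congr rfl fun a _ => ?_
  simp

lemma co_th {n m : ℕ} {p : P2 ℤ} (hp : BD n m p) (a₁ a₂ : K) (u w : PowerSeries K) (j₁ j₂ : ℕ) :
    co j₁ j₂ (th a₁ a₂ p * (in1 u * in2 w)) =
    ∑ b ∈ Finset.range (m + 1), ∑ a ∈ Finset.range (n + 1),
      (((p.coeff b).coeff a : ℤ) : K) * PowerSeries.coeff j₁ (xs a₁ ^ a * u) *
        PowerSeries.coeff j₂ (xs a₂ ^ b * w) := by
  rw [th_eq hp, Finset.sum_mul, co_sum]
  refine Finset.sum_congr rfl fun b _ => ?_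
  rw [Finset.sum_mul, co_sum]
  refine Finset.sum_congr rfl fun a _ => ?_
  have : in1 (PowerSeries.C (((p.coeff b).coeff a : ℤ) : K) * xs a₁ ^ a) * in2 (xs a₂ ^ b) *
      (in1 u * in2 w) = in1 (PowerSeries.C (((p.coeff b).coeff a : ℤ) : K) * (xs a₁ ^ a * u)) *
        in2 (xs a₂ ^ b * w) := by
    simp only [map_mul]; ring
  rw [this, co_in, coeff_C_mul]

/-- the function `y₁ y₂` -/
noncomputable def yy (a₁ b₁ a₂ b₂ : K) : AA K :=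
  in1 (PowerSeries.C b₁ * ss a₁) * in2 (PowerSeries.C b₂ * ss a₂)

lemma yy_sq {a₁ b₁ a₂ b₂ : K} (h₁ : b₁ ^ 2 = fv a₁) (h₂ : b₂ ^ 2 = fv a₂) :
    yy a₁ b₁ a₂ b₂ ^ 2 = th a₁ a₂ (DD ℤ) := by
  have e : ∀ (a b : K), b ^ 2 = fv a → (PowerSeries.C b * ss a) ^ 2 = fv (xs a) := by
    intro a b h
    rw [mul_pow, ← map_pow, h, ss_sq]
  rw [yy, mul_pow, ← map_pow, ← map_pow, e _ _ h₁, e _ _ h₂, DD, map_mul, th_f1, th_f2]

/-- the expansion of an element of `RR ℤ` -/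
noncomputable def Th (a₁ b₁ a₂ b₂ : K) (G : RR ℤ) : AA K :=
  th a₁ a₂ G.re + th a₁ a₂ G.im * yy a₁ b₁ a₂ b₂

lemma Th_mul {a₁ b₁ a₂ b₂ : K} (h₁ : b₁ ^ 2 = fv a₁) (h₂ : b₂ ^ 2 = fv a₂) (G H : RR ℤ) :
    Th a₁ b₁ a₂ b₂ (G * H) = Th a₁ b₁ a₂ b₂ G * Th a₁ b₁ a₂ b₂ H := by
  have h := yy_sq h₁ h₂
  simp only [Th, QuadraticAlgebra.re_mul, QuadraticAlgebra.im_mul, zero_mul, add_zero, map_add,
    map_mul, ← h]
  ring

lemma Th_pow {a₁ b₁ a₂ b₂ : K} (h₁ : b₁ ^ 2 = fv a₁) (h₂ : b₂ ^ 2 = fv a₂) (G : RR ℤ)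
    (n : ℕ) : Th a₁ b₁ a₂ b₂ (G ^ n) = Th a₁ b₁ a₂ b₂ G ^ n := by
  induction n with
  | zero => simp [Th, QuadraticAlgebra.re_one, QuadraticAlgebra.im_one]
  | succ n ih => rw [pow_succ, Th_mul h₁ h₂, ih, pow_succ]

lemma Th_dl (a₁ b₁ a₂ b₂ : K) : Th a₁ b₁ a₂ b₂ (dl ℤ) = th a₁ a₂ (dlt ℤ) := by
  simp [Th, dl]

lemma Th_norm {a₁ b₁ a₂ b₂ : K} (h₁ : b₁ ^ 2 = fv a₁) (h₂ : b₂ ^ 2 = fv a₂) (G : RR ℤ) :
    Th a₁ b₁ a₂ b₂ (star G) * Th a₁ b₁ a₂ b₂ G = th a₁ a₂ (G.re ^ 2 - DD ℤ * G.im ^ 2) := by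
  have h := yy_sq h₁ h₂
  simp only [Th, QuadraticAlgebra.re_star, QuadraticAlgebra.im_star, zero_mul, add_zero, map_neg,
    map_sub, map_mul, map_pow, ← h]
  ring

lemma cz_yy (a₁ b₁ a₂ b₂ : K) : cz (yy a₁ b₁ a₂ b₂) = b₁ * b₂ := by
  rw [yy, map_mul, cz_in1, cz_in2, map_mul, map_mul, const_ss, const_ss]
  simp

lemma cz_fv1 (a : K) : cz (in1 (fv (xs a))) = fv a := by
  rw [cz_in1, fv, fv]
  simp only [map_add, map_mul, map_pow, map_intCast, const_xs]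

lemma cz_fv2 (a : K) : cz (in2 (fv (xs a))) = fv a := by
  rw [cz_in2, fv, fv]
  simp only [map_add, map_mul, map_pow, map_intCast, const_xs]

lemma cz_Th_P0 {a₁ b₁ a₂ b₂ : K} (h₁ : b₁ ^ 2 = fv a₁) (h₂ : b₂ ^ 2 = fv a₂) :
    cz (Th a₁ b₁ a₂ b₂ (P0 ℤ)) = (b₁ + b₂) ^ 2 := by
  simp only [Th, P0, map_add, th_f1, th_f2, map_mul, cz_yy, map_ofNat, cz_fv1, cz_fv2]
  rw [← h₁, ← h₂]
  ring

lemma cz_Th_P3 {a₁ b₁ a₂ b₂ : K} (h₁ : b₁ ^ 2 = fv a₁) (h₂ : b₂ ^ 2 = fv a₂) :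
    cz (Th a₁ b₁ a₂ b₂ (P3 ℤ)) = (b₁ * a₂ ^ 3 + b₂ * a₁ ^ 3) ^ 2 := by
  simp only [Th, P3, map_add, th_f1, th_f2, map_mul, cz_yy, map_ofNat, map_pow, th_X, th_CX,
    cz_fv1, cz_fv2]
  simp only [cz_in1, cz_in2, const_xs]
  rw [← h₁, ← h₂]
  ring

lemma cz_dlt (a₁ a₂ : K) : cz (th a₁ a₂ (dlt ℤ)) = a₂ - a₁ := by
  rw [th_dlt, map_sub, cz_in1, cz_in2, const_xs, const_xs]

lemma isUnit_of_cz {U : AA K} (h : cz U ≠ 0) : IsUnit U := by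
  rw [PowerSeries.isUnit_iff_constantCoeff, PowerSeries.isUnit_iff_constantCoeff]
  exact isUnit_iff_ne_zero.mpr h

end theta

end Run7.h441.JM.Mo
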