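import Pool.Agent.Run7.h441.JM.Mo.V5a
import Pool.Agent.H437R2.Man.V5b

/-! Main inequality: local bounds. -/

set_option autoImplicit false
set_option linter.unusedSectionVars false

open PowerSeries

namespace Run7.h441.JM.Mo

open Pool.Agent.H437R2.Man (AA in1 in2 co co_in co_mul co_add co_sum cz cz_eq cz_in1 cz_in2
  co_mul_ne co_mul_min exists_min arch_sum nonarch_sum)

variable [Gc]

variable {K : Type} [Field K] {v : AbsoluteValue K ℝ}

/-- logarithmic constant -/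
noncomputable def lc : ℝ := Real.log (1000 * hh)

lemma exp_lc : Real.exp lc = 1000 * hh := by
  have := one_le_hh
  exact Real.exp_log (by linarith)

lemma lc_nonneg : 0 ≤ lc := by
  have := one_le_hh
  exact Real.log_nonneg (by linarith)

lemma co_Th {n m : ℕ} {G : RR ℤ} (hG : BR n m G) (a₁ b₁ a₂ b₂ : K) (j₁ j₂ : ℕ) :
    co j₁ j₂ (Th a₁ b₁ a₂ b₂ G) =
    (∑ b ∈ Finset.range (m + 1), ∑ a ∈ Finset.range (n + 1),
      (((G.re.coeff b).coeff a : ℤ) : K) * PowerSeries.coeff j₁ (us a₁ b₁ a 0) *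
        PowerSeries.coeff j₂ (us a₂ b₂ b 0)) +
    ∑ b ∈ Finset.range (m - 3 + 1), ∑ a ∈ Finset.range (n - 3 + 1),
      (((G.im.coeff b).coeff a : ℤ) : K) * PowerSeries.coeff j₁ (us a₁ b₁ a 1) *
        PowerSeries.coeff j₂ (us a₂ b₂ b 1) := by
  have h0 := co_th hG.2.2.1 a₁ a₂ 1 1 j₁ j₂
  have h1 := co_th hG.2.2.2 a₁ a₂ (PowerSeries.C b₁ * ss a₁) (PowerSeries.C b₂ * ss a₂) j₁ j₂
  rw [map_one, map_one, mul_one, mul_one] at h0
  rw [Th, co_add, h0, yy, h1]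
  simp only [us, pow_zero, pow_one]

lemma arch_Th (hv : ∀ n : ℕ, v (n : K) = n) {a₁ b₁ a₂ b₂ : K} (h₁ : b₁ ^ 2 = fv a₁)
    (h₂ : b₂ ^ 2 = fv a₂) {n m : ℕ} {G : RR ℤ} (hG : BR n m G) {Λ : ℝ} (hre : CB Λ G.re)
    (him : CB Λ G.im) (j₁ j₂ : ℕ) :
    v (co j₁ j₂ (Th a₁ b₁ a₂ b₂ G)) ≤ Real.exp (Λ + lc * (n + m) + lc * (j₁ + j₂)) *
      max (v a₁) 1 ^ (n + 5 * j₁) * max (v a₂) 1 ^ (m + 5 * j₂) := by
  have hp := one_le_hh
  obtain ⟨hn3, hm3, -, -⟩ := id hG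
  set X₁ := max (v a₁) 1 with hX₁
  set X₂ := max (v a₂) 1 with hX₂
  have h11 : 1 ≤ X₁ := le_max_right _ _
  have h12 : 1 ≤ X₂ := le_max_right _ _
  have hp1 : 0 < X₁ := by linarith
  have hp2 : 0 < X₂ := by linarith
  have hint : ∀ z : ℤ, v (z : K) = |(z : ℝ)| := by
    intro z
    obtain ⟨k, rfl | rfl⟩ := Int.eq_nat_or_neg z
    · simp [hv]
    · simp [hv]
  have hαβ : ∀ (a b : K) (hab : b ^ 2 = fv a) (N : ℕ), 3 ≤ N → ∀ j : ℕ,
      (∀ p ≤ N, v (PowerSeries.coeff j (us a b p 0)) ≤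
        (2 * hh * max (v a) 1) ^ N * (1000 * hh * max (v a) 1 ^ 5) ^ j) ∧
      (∀ p ≤ N - 3, v (PowerSeries.coeff j (us a b p 1)) ≤
        (2 * hh * max (v a) 1) ^ N * (1000 * hh * max (v a) 1 ^ 5) ^ j) := by
    intro a b hab N hN j
    have hX1 : 1 ≤ max (v a) 1 := le_max_right _ _
    have hX0 : 0 < max (v a) 1 := by linarith
    have h2X : 1 ≤ 2 * max (v a) 1 := by linarith
    have h2H : 2 * max (v a) 1 ≤ 2 * hh * max (v a) 1 := by nlinarith
    constructor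
    · intro p hp
      refine le_trans (arch_us hv hab p 0 j) ?_
      rw [pow_zero, mul_one]
      refine mul_le_mul_of_nonneg_right ?_ (by positivity)
      exact (pow_le_pow_left₀ (by positivity) h2H p).trans (pow_le_pow_right₀ (h2X.trans h2H) hp)
    · intro p hp
      refine le_trans (arch_us hv hab p 1 j) ?_
      refine mul_le_mul_of_nonneg_right ?_ (by positivity)
      calc (2 * max (v a) 1) ^ p * (4 * hh * max (v a) 1 ^ 3) ^ 1
          ≤ (2 * hh * max (v a) 1) ^ (N - 3) * (2 * hh * max (v a) 1) ^ 3 := by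
            refine mul_le_mul ((pow_le_pow_left₀ (by positivity) h2H p).trans
              (pow_le_pow_right₀ (h2X.trans h2H) hp)) ?_ (by positivity) (by positivity)
            rw [pow_one, mul_pow, mul_pow]
            have h3 : (0:ℝ) ≤ max (v a) 1 ^ 3 := by positivity
            have h4 : hh ≤ hh ^ 3 := le_self_pow₀ ‹1 ≤ hh› (by norm_num)
            have h5 : 4 * hh ≤ 2 ^ 3 * hh ^ 3 := by linarith
            exact mul_le_mul_of_nonneg_right h5 h3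
        _ = _ := by rw [← pow_add]; congr 1; omega
  have hb1 := hαβ a₁ b₁ h₁ n hn3 j₁
  have hb2 := hαβ a₂ b₂ h₂ m hm3 j₂
  rw [← hX₁] at hb1
  rw [← hX₂] at hb2
  set α := (2 * hh * X₁) ^ n * (1000 * hh * X₁ ^ 5) ^ j₁ with hα
  set β := (2 * hh * X₂) ^ m * (1000 * hh * X₂ ^ 5) ^ j₂ with hβ
  have hα0 : 0 ≤ α := by positivity
  have hβ0 : 0 ≤ β := by positivity
  have hE : (0:ℝ) ≤ Real.exp Λ := (Real.exp_pos _).le
  have s1 := arch_sum (v := v) (n := n) (m := m) (c := fun b a => (((G.re.coeff b).coeff a : ℤ) : K))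
    hE hα0 (fun a b => by rw [hint]; exact hre a b) hb1.1 hb2.1
  have s2 := arch_sum (v := v) (n := n - 3) (m := m - 3)
    (c := fun b a => (((G.im.coeff b).coeff a : ℤ) : K))
    hE hα0 (fun a b => by rw [hint]; exact him a b) hb1.2 hb2.2
  rw [co_Th hG]
  refine le_trans (v.add_le _ _) (le_trans (add_le_add s1 s2) ?_)
  have e1 : ((m - 3 : ℕ) : ℝ) ≤ m := by exact_mod_cast Nat.sub_le _ _
  have e2 : ((n - 3 : ℕ) : ℝ) ≤ n := by exact_mod_cast Nat.sub_le _ _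
  have e3 : (((m - 3 : ℕ) : ℝ) + 1) * ((((n - 3 : ℕ) : ℝ) + 1) * (Real.exp Λ * α * β)) ≤
      ((m:ℝ) + 1) * (((n:ℝ) + 1) * (Real.exp Λ * α * β)) := by
    have : 0 ≤ Real.exp Λ * α * β := by positivity
    gcongr
  have n1 : ((n:ℝ) + 1) ≤ 2 ^ n := by exact_mod_cast Nat.lt_two_pow_self
  have m1 : ((m:ℝ) + 1) ≤ 2 ^ m := by exact_mod_cast Nat.lt_two_pow_self
  have h8 : 8 * hh ≤ Real.exp lc := by
    rw [exp_lc]; linarith
  have h1000 : 1000 * hh ≤ Real.exp lc := by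
    rw [exp_lc]
  have hfin : ((m:ℝ) + 1) * (((n:ℝ) + 1) * (Real.exp Λ * α * β)) * 2 ≤
      Real.exp (Λ + lc * (n + m) + lc * (j₁ + j₂)) * X₁ ^ (n + 5 * j₁) * X₂ ^ (m + 5 * j₂) := by
    have ee : Real.exp (Λ + lc * (n + m) + lc * (j₁ + j₂)) =
        Real.exp Λ * (Real.exp lc ^ (n + m)) * Real.exp lc ^ (j₁ + j₂) := by
      rw [Real.exp_add, Real.exp_add, ← Real.exp_nat_mul, ← Real.exp_nat_mul]
      push_cast
      ring_nf
    rw [ee]
    have e5 : (2:ℝ) ≤ 2 ^ n := by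
      calc (2:ℝ) = 2 ^ 1 := by norm_num
        _ ≤ 2 ^ n := pow_le_pow_right₀ (by norm_num) (by omega)
    calc ((m:ℝ) + 1) * (((n:ℝ) + 1) * (Real.exp Λ * α * β)) * 2
        ≤ 2 ^ m * (2 ^ n * (Real.exp Λ * α * β)) * 2 ^ (n + m) := by
          have e6 : (2:ℝ) ≤ 2 ^ (n+m) := le_trans e5 (pow_le_pow_right₀ (by norm_num) (by omega))
          have : 0 ≤ Real.exp Λ * α * β := by positivity
          gcongr
      _ = Real.exp Λ * ((8 * hh) ^ (n + m)) * (1000 * hh) ^ (j₁ + j₂) * X₁ ^ (n + 5 * j₁)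
          * X₂ ^ (m + 5 * j₂) := by
          have e8 : ∀ k : ℕ, (8 * hh) ^ k = 2 ^ k * 2 ^ k * (2 * hh) ^ k := by
            intro k; rw [← mul_pow, ← mul_pow]; ring_nf
          have e9 : (2 * hh * X₁) ^ n = (2 * hh) ^ n * X₁ ^ n := mul_pow _ _ _
          have e10 : (2 * hh * X₂) ^ m = (2 * hh) ^ m * X₂ ^ m := mul_pow _ _ _
          have e11 : (1000 * hh * X₁ ^ 5) ^ j₁ = (1000 * hh) ^ j₁ * (X₁ ^ 5) ^ j₁ := mul_pow _ _ _
          have e12 : (1000 * hh * X₂ ^ 5) ^ j₂ = (1000 * hh) ^ j₂ * (X₂ ^ 5) ^ j₂ := mul_pow _ _ _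
          rw [hα, hβ, e8, e9, e10, e11, e12, pow_add (1000 * hh), pow_add (2 * hh), pow_add (2:ℝ),
            pow_add X₁, pow_add X₂, pow_mul X₁, pow_mul X₂]
          ring
      _ ≤ _ := by gcongr
  linarith

lemma nonarch_Th (hv : IsNonarchimedean v) (hn : ∀ n : ℕ, v (n : K) ≤ 1) {a₁ b₁ a₂ b₂ : K}
    (h₁ : b₁ ^ 2 = fv a₁)
    (h₂ : b₂ ^ 2 = fv a₂) {n m : ℕ} {G : RR ℤ} (hG : BR n m G) (j₁ j₂ : ℕ) :
    v (co j₁ j₂ (Th a₁ b₁ a₂ b₂ G)) ≤
      max (v a₁) 1 ^ (n + 5 * j₁) * max (v a₂) 1 ^ (m + 5 * j₂) := by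
  obtain ⟨hn3, hm3, -, -⟩ := id hG
  set X₁ := max (v a₁) 1 with hX₁
  set X₂ := max (v a₂) 1 with hX₂
  have h11 : 1 ≤ X₁ := le_max_right _ _
  have h12 : 1 ≤ X₂ := le_max_right _ _
  have hp1 : 0 < X₁ := by linarith
  have hp2 : 0 < X₂ := by linarith
  have hint : ∀ z : ℤ, v (z : K) ≤ 1 := by
    intro z
    rcases Int.natAbs_eq z with h | h
    · rw [h]; simpa using hn z.natAbs
    · rw [h]; simpa using hn z.natAbs
  have hαβ : ∀ (a b : K) (hab : b ^ 2 = fv a) (N : ℕ), 3 ≤ N → ∀ j : ℕ,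
      (∀ p ≤ N, v (PowerSeries.coeff j (us a b p 0)) ≤
        (max (v a) 1) ^ N * (max (v a) 1 ^ 5) ^ j) ∧
      (∀ p ≤ N - 3, v (PowerSeries.coeff j (us a b p 1)) ≤
        (max (v a) 1) ^ N * (max (v a) 1 ^ 5) ^ j) := by
    intro a b hab N hN j
    have hX1 : 1 ≤ max (v a) 1 := le_max_right _ _
    have hX0 : 0 < max (v a) 1 := by linarith
    constructor
    · intro p hp
      refine le_trans (nonarch_us hv hn hab p 0 j) ?_
      rw [pow_zero, mul_one]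
      exact mul_le_mul_of_nonneg_right (pow_le_pow_right₀ hX1 hp) (by positivity)
    · intro p hp
      refine le_trans (nonarch_us hv hn hab p 1 j) ?_
      refine mul_le_mul_of_nonneg_right ?_ (by positivity)
      calc (max (v a) 1) ^ p * (max (v a) 1 ^ 3) ^ 1
          ≤ (max (v a) 1) ^ (N - 3) * (max (v a) 1) ^ 3 := by
            refine mul_le_mul (pow_le_pow_right₀ hX1 hp) ?_ (by positivity) (by positivity)
            rw [pow_one]
        _ = _ := by rw [← pow_add]; congr 1; omega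
  have hb1 := hαβ a₁ b₁ h₁ n hn3 j₁
  have hb2 := hαβ a₂ b₂ h₂ m hm3 j₂
  rw [← hX₁] at hb1
  rw [← hX₂] at hb2
  set α := (X₁) ^ n * (X₁ ^ 5) ^ j₁ with hα
  set β := (X₂) ^ m * (X₂ ^ 5) ^ j₂ with hβ
  have hα0 : 0 ≤ α := by positivity
  have hβ0 : 0 ≤ β := by positivity
  have s1 := nonarch_sum (v := v) hv (n := n) (m := m) (c := fun b a => (((G.re.coeff b).coeff a : ℤ) : K))
    hα0 (fun a b => hint _) hb1.1 hb2.1
  have s2 := nonarch_sum (v := v) hv (n := n - 3) (m := m - 3)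
    (c := fun b a => (((G.im.coeff b).coeff a : ℤ) : K))
    hα0 (fun a b => hint _) hb1.2 hb2.2
  rw [co_Th hG]
  refine le_trans (hv _ _) (max_le (le_trans s1 ?_) (le_trans s2 ?_)) <;>
  · rw [hα, hβ]
    apply le_of_eq
    ring

/-- binomial coefficients -/
lemma coeff_xs_pow (a : K) (n i : ℕ) : PowerSeries.coeff i (xs a ^ n) =
    ((n.choose i : K) * a ^ (n - i)) * (4 * fv a) ^ i := by
  set c : K := 4 * fv a with hc
  have h : xs a ^ n = ((Polynomial.C a + Polynomial.C c * Polynomial.X) ^ n : Polynomial K) := by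
    rw [xs, ← hc]
    push_cast
    rfl
  rw [h, Polynomial.coeff_coe]
  have h2 : (Polynomial.C a + Polynomial.C c * Polynomial.X : Polynomial K) =
      (Polynomial.C a + Polynomial.X).comp (Polynomial.C c * Polynomial.X) := by simp
  rw [h2, ← Polynomial.pow_comp, Polynomial.comp_C_mul_X_coeff, add_comm (Polynomial.C a),
    Polynomial.coeff_X_add_C_pow]
  ring

end Run7.h441.JM.Mo
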