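import Pool.Agent.Run7.h441.JM.Mo.V5b
import Pool.Agent.H437R2.Man.V5c

/-! Main inequality: conclusion. -/

set_option autoImplicit false
set_option linter.unusedSectionVars false

open PowerSeries Height

namespace Run7.h441.JM.Mo

open Pool.Agent.H437R2.Man (AA in1 in2 co co_in co_mul co_add co_sum cz cz_eq cz_in1 cz_in2
  co_mul_ne co_mul_min exists_min local_step gs)

variable [Gc]

section

variable {K : Type} [Field K] [CharZero K]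

/-- existence of the leading exponent and the relations between leading coefficients -/
lemma leading {n₁ n₂ e : ℕ} {G R R' : RR ℤ} {Q : P2 ℤ} (hV : VV e G R R')
    (hN : G.re ^ 2 - DD ℤ * G.im ^ 2 = dlt ℤ ^ (2 * e) * Q)
    (hQ : BD (2 * n₁ - 2 * e) (2 * n₂ - 2 * e) Q) {a₁ b₁ a₂ b₂ : K} (h₁ : b₁ ^ 2 = fv a₁)
    (h₂ : b₂ ^ 2 = fv a₂) (hf₁ : fv a₁ ≠ 0) (hf₂ : fv a₂ ≠ 0) (hne : a₁ ≠ a₂)
    {i₁ i₂ : ℕ} (hi : ∑ a ∈ Finset.range (2 * n₁ - 2 * e + 1), ∑ b ∈ Finset.range (2 * n₂ - 2 * e + 1),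
          (((Q.coeff b).coeff a : ℤ) : K) * ((a.choose i₁ : K) * a₁ ^ (a - i₁)) *
            ((b.choose i₂ : K) * a₂ ^ (b - i₂)) ≠ 0) :
    ∃ j₁ ≤ i₁, ∃ j₂ ≤ i₂, co j₁ j₂ (Th a₁ b₁ a₂ b₂ G) ≠ 0 ∧
      (a₂ - a₁) ^ (2 * e) * co j₁ j₂ (Th a₁ b₁ a₂ b₂ R) =
        (b₁ + b₂) ^ (2 * e) * co j₁ j₂ (Th a₁ b₁ a₂ b₂ G) ∧
      (a₂ - a₁) ^ (2 * e) * co j₁ j₂ (Th a₁ b₁ a₂ b₂ R') =
        (b₁ * a₂ ^ 3 + b₂ * a₁ ^ 3) ^ (2 * e) * co j₁ j₂ (Th a₁ b₁ a₂ b₂ G) := by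
  have hcz : cz (th a₁ a₂ (dlt ℤ)) ≠ 0 := by
    rw [cz_dlt]; exact sub_ne_zero.mpr hne.symm
  obtain ⟨W, hW⟩ := (isUnit_of_cz hcz).exists_left_inv
  -- nonvanishing coefficient of `Q`
  have hQne : co i₁ i₂ (th a₁ a₂ Q) ≠ 0 := by
    have h := co_th hQ a₁ a₂ 1 1 i₁ i₂
    rw [map_one, map_one, mul_one, mul_one] at h
    rw [h]
    simp only [mul_one, coeff_xs_pow]
    have e1 : ∑ b ∈ Finset.range (2 * n₂ - 2 * e + 1), ∑ a ∈ Finset.range (2 * n₁ - 2 * e + 1),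
        (((Q.coeff b).coeff a : ℤ) : K) * ((a.choose i₁ : K) * a₁ ^ (a - i₁) * (4 * fv a₁) ^ i₁) *
            ((b.choose i₂ : K) * a₂ ^ (b - i₂) * (4 * fv a₂) ^ i₂) =
        ((4 * fv a₁) ^ i₁ * (4 * fv a₂) ^ i₂) *
        ∑ a ∈ Finset.range (2 * n₁ - 2 * e + 1), ∑ b ∈ Finset.range (2 * n₂ - 2 * e + 1),
          (((Q.coeff b).coeff a : ℤ) : K) * ((a.choose i₁ : K) * a₁ ^ (a - i₁)) *
            ((b.choose i₂ : K) * a₂ ^ (b - i₂)) := by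
      rw [Finset.sum_comm, Finset.mul_sum]
      refine Finset.sum_congr rfl fun a _ => ?_
      rw [Finset.mul_sum]
      refine Finset.sum_congr rfl fun b _ => ?_
      ring
    rw [e1]
    have h4 : (4:K) ≠ 0 := by norm_num
    exact mul_ne_zero (mul_ne_zero (pow_ne_zero _ (mul_ne_zero h4 hf₁))
      (pow_ne_zero _ (mul_ne_zero h4 hf₂))) hi
  have hG1 : ∃ k₁ ≤ i₁, ∃ k₂ ≤ i₂, co k₁ k₂ (Th a₁ b₁ a₂ b₂ G) ≠ 0 := by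
    have h := Th_norm h₁ h₂ G
    rw [hN, map_mul, map_pow] at h
    have h2 : th a₁ a₂ Q = (W ^ (2 * e) * Th a₁ b₁ a₂ b₂ (star G)) * Th a₁ b₁ a₂ b₂ G := by
      calc th a₁ a₂ Q = (W * th a₁ a₂ (dlt ℤ)) ^ (2 * e) * th a₁ a₂ Q := by rw [hW, one_pow, one_mul]
        _ = W ^ (2 * e) * (th a₁ a₂ (dlt ℤ) ^ (2 * e) * th a₁ a₂ Q) := by rw [mul_pow]; ring
        _ = _ := by rw [← h]; ring
    rw [h2] at hQne
    exact co_mul_ne hQne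
  obtain ⟨j₁, hj₁, j₂, hj₂, hne2, hmin⟩ := exists_min hG1
  refine ⟨j₁, hj₁, j₂, hj₂, hne2, ?_, ?_⟩
  · have h := congrArg (Th a₁ b₁ a₂ b₂) hV.1
    rw [Th_mul h₁ h₂, Th_mul h₁ h₂, Th_pow h₁ h₂, Th_pow h₁ h₂, Th_dl] at h
    have h3 : Th a₁ b₁ a₂ b₂ R = (W ^ (2 * e) * Th a₁ b₁ a₂ b₂ (P0 ℤ) ^ e) * Th a₁ b₁ a₂ b₂ G := by
      calc Th a₁ b₁ a₂ b₂ R = (W * th a₁ a₂ (dlt ℤ)) ^ (2 * e) * Th a₁ b₁ a₂ b₂ R := by
            rw [hW, one_pow, one_mul]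
        _ = W ^ (2 * e) * (th a₁ a₂ (dlt ℤ) ^ (2 * e) * Th a₁ b₁ a₂ b₂ R) := by rw [mul_pow]; ring
        _ = _ := by rw [← h]; ring
    have h4 : (a₂ - a₁) * cz W = 1 := by
      rw [← cz_dlt, ← map_mul, mul_comm, hW, map_one]
    rw [h3, co_mul_min hmin, map_mul, map_pow, map_pow, cz_Th_P0 h₁ h₂]
    calc (a₂ - a₁) ^ (2 * e) * ((cz W ^ (2 * e) * ((b₁ + b₂) ^ 2) ^ e) * co j₁ j₂ (Th a₁ b₁ a₂ b₂ G))
        = ((a₂ - a₁) * cz W) ^ (2 * e) * ((b₁ + b₂) ^ (2 * e) * co j₁ j₂ (Th a₁ b₁ a₂ b₂ G)) := by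
          rw [mul_pow, pow_mul (b₁ + b₂)]; ring
      _ = _ := by rw [h4, one_pow, one_mul]
  · have h := congrArg (Th a₁ b₁ a₂ b₂) hV.2
    rw [Th_mul h₁ h₂, Th_mul h₁ h₂, Th_pow h₁ h₂, Th_pow h₁ h₂, Th_dl] at h
    have h3 : Th a₁ b₁ a₂ b₂ R' = (W ^ (2 * e) * Th a₁ b₁ a₂ b₂ (P3 ℤ) ^ e) * Th a₁ b₁ a₂ b₂ G := by
      calc Th a₁ b₁ a₂ b₂ R' = (W * th a₁ a₂ (dlt ℤ)) ^ (2 * e) * Th a₁ b₁ a₂ b₂ R' := by
            rw [hW, one_pow, one_mul]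
        _ = W ^ (2 * e) * (th a₁ a₂ (dlt ℤ) ^ (2 * e) * Th a₁ b₁ a₂ b₂ R') := by rw [mul_pow]; ring
        _ = _ := by rw [← h]; ring
    have h4 : (a₂ - a₁) * cz W = 1 := by
      rw [← cz_dlt, ← map_mul, mul_comm, hW, map_one]
    rw [h3, co_mul_min hmin, map_mul, map_pow, map_pow, cz_Th_P3 h₁ h₂]
    calc (a₂ - a₁) ^ (2 * e) * ((cz W ^ (2 * e) * ((b₁ * a₂ ^ 3 + b₂ * a₁ ^ 3) ^ 2) ^ e) *
          co j₁ j₂ (Th a₁ b₁ a₂ b₂ G))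
        = ((a₂ - a₁) * cz W) ^ (2 * e) * ((b₁ * a₂ ^ 3 + b₂ * a₁ ^ 3) ^ (2 * e) *
          co j₁ j₂ (Th a₁ b₁ a₂ b₂ G)) := by
          rw [mul_pow, pow_mul (b₁ * a₂ ^ 3 + b₂ * a₁ ^ 3)]; ring
      _ = _ := by rw [h4, one_pow, one_mul]

end

/-- statement of the product formula step -/
def SumStatement (K : Type) [Field K] [NumberField K] : Prop :=
    ∀ c : ℝ, 0 ≤ c →
    ∃ C : ℝ, 0 < C ∧ ∀ (n₁ n₂ e j₁ j₂ : ℕ) (Λ : ℝ), 0 ≤ Λ → ∀ a₁ b₁ a₂ b₂ g : K, a₁ ≠ a₂ → g ≠ 0 →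
      b₁ ^ 2 = fv a₁ → b₂ ^ 2 = fv a₂ →
      (∀ v : AbsoluteValue K ℝ, (∀ n : ℕ, v (n : K) = n) →
        v g * (max (v (a₁ - a₂) * max (v a₁) 1 ^ 2 * max (v a₂) 1 ^ 2)
            (max (v (b₁ + b₂)) (v (b₁ * a₂ ^ 3 + b₂ * a₁ ^ 3)))) ^ (2 * e) ≤
          Real.exp (Λ + c * (n₁ + n₂ + e + j₁ + j₂)) * max (v a₁) 1 ^ (n₁ + 4 * e + 5 * j₁) *
            max (v a₂) 1 ^ (n₂ + 4 * e + 5 * j₂) * v (a₁ - a₂) ^ (2 * e)) →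
      (∀ v : AbsoluteValue K ℝ, IsNonarchimedean v → (∀ n : ℕ, v (n : K) ≤ 1) →
        v g * (max (v (a₁ - a₂) * max (v a₁) 1 ^ 2 * max (v a₂) 1 ^ 2)
            (max (v (b₁ + b₂)) (v (b₁ * a₂ ^ 3 + b₂ * a₁ ^ 3)))) ^ (2 * e) ≤
          max (v a₁) 1 ^ (n₁ + 4 * e + 5 * j₁) *
            max (v a₂) 1 ^ (n₂ + 4 * e + 5 * j₂) * v (a₁ - a₂) ^ (2 * e)) →
      2 * e * gs (mloc a₁ b₁ a₂ b₂) ≤ (n₁ + 4 * e + 5 * j₁) * logHeight₁ a₁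
          + (n₂ + 4 * e + 5 * j₂) * logHeight₁ a₂ + C * (Λ + n₁ + n₂ + e + j₁ + j₂)

theorem mi_of (K : Type) [Field K] [NumberField K] (hS : SumStatement K) : MIStatement K := by
  have hlc := lc_nonneg
  obtain ⟨C, hC, hmain⟩ := hS (8 * lc) (by linarith)
  refine ⟨C, hC, ?_⟩
  intro n₁ n₂ e G R R' Q Λ hG hV hR hR' hN hQ hΛ hc1 hc2 hc3 hc4 hc5 hc6 a₁ b₁ a₂ b₂ h₁ h₂ hf₁ hf₂ hne
    i₁ i₂ hi r₁ r₂ hr₁ hr₂
  obtain ⟨j₁, hj₁, j₂, hj₂, hg, e1, e2⟩ := leading hV hN hQ h₁ h₂ hf₁ hf₂ hne hi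
  refine ⟨j₁, j₂, ?_, ?_⟩
  · have t1 : (j₁:ℝ) ≤ i₁ := by exact_mod_cast hj₁
    have t2 : (j₂:ℝ) ≤ i₂ := by exact_mod_cast hj₂
    exact add_le_add (div_le_div_of_nonneg_right t1 hr₁.le) (div_le_div_of_nonneg_right t2 hr₂.le)
  · refine hmain n₁ n₂ e j₁ j₂ Λ hΛ a₁ b₁ a₂ b₂ (co j₁ j₂ (Th a₁ b₁ a₂ b₂ G)) hne hg h₁ h₂ ?_ ?_
    · intro v hv
      have g1 := arch_Th hv h₁ h₂ hG hc1 hc2 j₁ j₂
      have g2 := arch_Th hv h₁ h₂ hR hc3 hc4 j₁ j₂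
      have g3 := arch_Th hv h₁ h₂ hR' hc5 hc6 j₁ j₂
      have hj1 : (0:ℝ) ≤ j₁ := Nat.cast_nonneg _
      have hj2 : (0:ℝ) ≤ j₂ := Nat.cast_nonneg _
      have hn1 : (0:ℝ) ≤ n₁ := Nat.cast_nonneg _
      have hn2 : (0:ℝ) ≤ n₂ := Nat.cast_nonneg _
      have he0 : (0:ℝ) ≤ e := Nat.cast_nonneg _
      have hB : (0:ℝ) ≤ Real.exp (Λ + 8 * lc * (n₁ + n₂ + e + j₁ + j₂)) := (Real.exp_pos _).le
      have hX1 : 1 ≤ max (v a₁) 1 := le_max_right _ _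
      have hX2 : 1 ≤ max (v a₂) 1 := le_max_right _ _
      have hw1 : Real.exp (Λ + lc * (n₁ + n₂) + lc * (j₁ + j₂)) ≤
          Real.exp (Λ + 8 * lc * (n₁ + n₂ + e + j₁ + j₂)) := Real.exp_le_exp.mpr (by
            nlinarith [mul_nonneg hlc hj1, mul_nonneg hlc hj2, mul_nonneg hlc hn1,
              mul_nonneg hlc hn2, mul_nonneg hlc he0])
      have hw2 : Real.exp (Λ + lc * (((n₁ + 4 * e : ℕ) : ℝ) + ((n₂ + 4 * e : ℕ) : ℝ)) + lc * (j₁ + j₂)) ≤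
          Real.exp (Λ + 8 * lc * (n₁ + n₂ + e + j₁ + j₂)) :=
        Real.exp_le_exp.mpr (by
          push_cast
          nlinarith [mul_nonneg hlc hj1, mul_nonneg hlc hj2, mul_nonneg hlc hn1,
              mul_nonneg hlc hn2, mul_nonneg hlc he0])
      have hmm : ∀ {x y z w : ℝ}, x ≤ y → 0 ≤ z → 0 ≤ w → x * z * w ≤ y * z * w := fun h hz hw =>
        mul_le_mul_of_nonneg_right (mul_le_mul_of_nonneg_right h hz) hw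
      have hp1 : ∀ k : ℕ, 0 ≤ max (v a₁) 1 ^ k := fun k => pow_nonneg (le_trans zero_le_one hX1) k
      have hp2 : ∀ k : ℕ, 0 ≤ max (v a₂) 1 ^ k := fun k => pow_nonneg (le_trans zero_le_one hX2) k
      have := local_step (v := v) hX1 hX2 hB (e := e) (N₁ := n₁ + 5 * j₁) (N₂ := n₂ + 5 * j₂) e1 e2
        (le_trans g1 (hmm hw1 (hp1 _) (hp2 _))) (le_trans g2 ?_) (le_trans g3 ?_)
      · rw [v.map_sub a₂ a₁] at this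
        have ea : n₁ + 5 * j₁ + 4 * e = n₁ + 4 * e + 5 * j₁ := by ring
        have eb : n₂ + 5 * j₂ + 4 * e = n₂ + 4 * e + 5 * j₂ := by ring
        rw [ea, eb] at this
        exact this
      · have ea : n₁ + 4 * e + 5 * j₁ = n₁ + 5 * j₁ + 4 * e := by ring
        have eb : n₂ + 4 * e + 5 * j₂ = n₂ + 5 * j₂ + 4 * e := by ring
        rw [ea, eb]
        exact hmm hw2 (hp1 _) (hp2 _)
      · have ea : n₁ + 4 * e + 5 * j₁ = n₁ + 5 * j₁ + 4 * e := by ring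
        have eb : n₂ + 4 * e + 5 * j₂ = n₂ + 5 * j₂ + 4 * e := by ring
        rw [ea, eb]
        exact hmm hw2 (hp1 _) (hp2 _)
    · intro v hv hn
      have g1 := nonarch_Th hv hn h₁ h₂ hG j₁ j₂
      have g2 := nonarch_Th hv hn h₁ h₂ hR j₁ j₂
      have g3 := nonarch_Th hv hn h₁ h₂ hR' j₁ j₂
      have hX1 : 1 ≤ max (v a₁) 1 := le_max_right _ _
      have hX2 : 1 ≤ max (v a₂) 1 := le_max_right _ _
      have ea : n₁ + 5 * j₁ + 4 * e = n₁ + 4 * e + 5 * j₁ := by ring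
      have eb : n₂ + 5 * j₂ + 4 * e = n₂ + 4 * e + 5 * j₂ := by ring
      have := local_step (v := v) hX1 hX2 zero_le_one (e := e) (N₁ := n₁ + 5 * j₁)
        (N₂ := n₂ + 5 * j₂) e1 e2
        (by rw [one_mul]; exact g1) (by rw [one_mul, ea, eb]; exact g2)
        (by rw [one_mul, ea, eb]; exact g3)
      rw [v.map_sub a₂ a₁, ea, eb, one_mul] at this
      exact this

end Run7.h441.JM.Mo
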